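import Pool.Agent.W5h75.FewFreq.Shell

set_option autoImplicit false

open Finset

namespace Pool.Agent.W5h75.FewFreq

/-- if every line with nonzero direction meets `S` in at most `K` points then `S` has line
complexity at most `K` -/
theorem lineComplexity_of_card {m : ℕ} (S : Set (Fin m → ℝ)) (K : ℕ) (hK : 1 ≤ K)
    (h : ∀ x v : Fin m → ℝ, v ≠ 0 → ∀ T : Finset ℝ, (∀ t ∈ T, x + t • v ∈ S) → T.card ≤ K) :
    LineComplexity S K := by
  classical
  intro x v
  by_cases hv : v = 0
  · subst hv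
    by_cases hx : x ∈ S
    · refine ⟨fun _ => Set.univ, fun _ => convex_univ, fun t => ?_⟩
      simp only [smul_zero, add_zero, Set.mem_univ, hx, true_iff]
      exact ⟨⟨0, hK⟩, trivial⟩
    · refine ⟨fun _ => ∅, fun _ => convex_empty, fun t => ?_⟩
      simp [hx]
  · have hfin : {t : ℝ | x + t • v ∈ S}.Finite := by
      by_contra hinf
      obtain ⟨T, hT, hTc⟩ := Set.Infinite.exists_subset_card_eq hinf (K + 1)
      have := h x v hv T fun t ht => hT ht
      omega
    have hcard : hfin.toFinset.card ≤ K := h x v hv _ fun t ht => by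
      simpa using ht
    let e := hfin.toFinset.equivFin
    refine ⟨fun c => if hc : (c : ℕ) < hfin.toFinset.card then {((e.symm ⟨c, hc⟩ : hfin.toFinset) : ℝ)}
      else ∅, fun c => ?_, fun t => ?_⟩
    · dsimp only
      split_ifs
      · exact convex_singleton _
      · exact convex_empty
    · constructor
      · intro ht
        have ht' : t ∈ hfin.toFinset := by simpa using ht
        refine ⟨⟨e ⟨t, ht'⟩, (e ⟨t, ht'⟩).2.trans_le hcard⟩, ?_⟩
        simp
      · rintro ⟨c, hc⟩
        dsimp only at hc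
        split_ifs at hc with h1
        · have h2 := (e.symm ⟨c, h1⟩).2
          rw [Set.Finite.mem_toFinset] at h2
          rw [Set.mem_singleton_iff] at hc
          rw [hc]
          exact h2
        · exact absurd hc (Set.notMem_empty _)

theorem pt_injective {m : ℕ} (α β : Fin m → ℝ) : Function.Injective (pt α β) := by
  intro a b h
  have := congrFun h 0
  simp only [pt, Fin.cons_zero] at this
  exact_mod_cast this

theorem cut_image {m : ℕ} (α β : Fin m → ℝ) (A : Finset ℕ) (N : ℕ) (hA : A ⊆ Icc 1 N) :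
    cut α β (pt α β '' (A : Set ℕ)) N = A := by
  classical
  ext n
  simp only [cut, mem_filter]
  constructor
  · rintro ⟨-, a, ha, h⟩
    rw [← pt_injective α β h]
    exact ha
  · intro hn
    exact ⟨hA hn, n, hn, rfl⟩

/-- three different points of `pt '' A` on a line -/
theorem collinear_of_card {m : ℕ} {α β : Fin m → ℝ} {x v : Fin (m + 1) → ℝ} (hv : v ≠ 0)
    {s t u : ℝ} (hst : s < t) (htu : t < u) {a b c : ℕ} (ha : pt α β a = x + s • v)
    (hb : pt α β b = x + t • v) (hc : pt α β c = x + u • v) :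
    a ≠ c ∧ ∃ l : ℝ, 0 < l ∧ l < 1 ∧ pt α β b = (1 - l) • pt α β a + l • pt α β c := by
  refine ⟨?_, (t - s) / (u - s), ?_, ?_, ?_⟩
  · rintro rfl
    rw [ha] at hc
    have h1 : (s - u) • v = 0 := by
      rw [sub_smul, sub_eq_zero]
      exact add_left_cancel hc
    rcases smul_eq_zero.1 h1 with h | h
    · linarith
    · exact hv h
  · exact div_pos (by linarith) (by linarith)
  · rw [div_lt_one (by linarith)]
    linarith
  · rw [ha, hb, hc]
    have h0 : u - s ≠ 0 := by linarith
    funext i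
    simp only [Pi.add_apply, Pi.smul_apply, smul_eq_mul]
    field_simp
    ring

/-- **Many frequencies.** If `N ≤ 2 ^ m` then every subset of `{1, …, N}` is given by the `m`
frequencies `1/2, 1/4, …, 1/2^m` and a set of line complexity two. -/
theorem all_subsets (m N : ℕ) (hN : N ≤ 2 ^ m) (A : Finset ℕ) (hA : A ⊆ Icc 1 N) :
    ∃ S : Set (Fin (m + 1) → ℝ), LineComplexity S 2 ∧ cut (fr 2 m) 0 S N = A := by
  classical
  refine ⟨pt (fr 2 m) 0 '' (A : Set ℕ), ?_, cut_image _ _ A N hA⟩
  refine lineComplexity_of_card _ 2 (by norm_num) fun x v hv T hT => ?_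
  by_contra hcon
  push Not at hcon
  obtain ⟨s, t, u, hs, ht, hu, hst, htu⟩ : ∃ s t u : ℝ, s ∈ T ∧ t ∈ T ∧ u ∈ T ∧ s < t ∧ t < u := by
    have h3 : 3 ≤ T.card := hcon
    let e := T.orderEmbOfFin rfl
    refine ⟨e ⟨0, by omega⟩, e ⟨1, by omega⟩, e ⟨2, by omega⟩, ?_, ?_, ?_, ?_, ?_⟩
    · exact T.orderEmbOfFin_mem rfl _
    · exact T.orderEmbOfFin_mem rfl _
    · exact T.orderEmbOfFin_mem rfl _
    · exact e.strictMono (by simp [Fin.lt_def])
    · exact e.strictMono (by simp [Fin.lt_def])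
  obtain ⟨a, haA, ha⟩ := hT s hs
  obtain ⟨b, hbA, hb⟩ := hT t ht
  obtain ⟨c, hcA, hc⟩ := hT u hu
  obtain ⟨hac, l, hl0, hl1, hl⟩ := collinear_of_card hv hst htu ha hb hc
  have hab : (b : ℝ) = (1 - l) * a + l * c := by
    have := congrFun hl 0
    simpa [pt] using this
  have hdiv : ∀ i ≤ m, ((b / 2 ^ i : ℕ) : ℝ) = (1 - l) * ((a / 2 ^ i : ℕ) : ℝ) +
      l * ((c / 2 ^ i : ℕ) : ℝ) := by
    intro i hi
    rcases Nat.eq_zero_or_pos i with rfl | hi0
    · simpa using hab
    · obtain ⟨i, rfl⟩ : ∃ i', i = i' + 1 := ⟨i - 1, by omega⟩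
      have h1 := congrFun hl (Fin.succ ⟨i, by omega⟩)
      simp only [pt, Fin.cons_succ, Pi.zero_apply, Pi.add_apply, Pi.smul_apply, smul_eq_mul,
        fr] at h1
      have hf := fun n : ℕ => fract_digit 2 i n
      push_cast at hf h1
      rw [hf, hf, hf] at h1
      have h2 : (0 : ℝ) < 2 ^ (i + 1) := by positivity
      have hd : ∀ n : ℕ, ((n / 2 ^ (i + 1) : ℕ) : ℝ) = (n - ((n % 2 ^ (i + 1) : ℕ) : ℝ)) / 2 ^ (i + 1) := by
        intro n
        rw [eq_div_iff h2.ne']
        have := Nat.div_add_mod n (2 ^ (i + 1))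
        have h3 : ((2 ^ (i + 1) * (n / 2 ^ (i + 1)) + n % 2 ^ (i + 1) : ℕ) : ℝ) = n := by
          exact_mod_cast this
        push_cast at h3
        linarith
      rw [hd, hd, hd]
      have h4 : ((b % 2 ^ (i + 1) : ℕ) : ℝ) = (1 - l) * ((a % 2 ^ (i + 1) : ℕ) : ℝ) +
          l * ((c % 2 ^ (i + 1) : ℕ) : ℝ) := by
        have h5 := congrArg (fun z => z * (2 : ℝ) ^ (i + 1)) h1
        simp only [add_mul] at h5
        rw [div_mul_cancel₀ _ h2.ne', mul_assoc, mul_assoc, div_mul_cancel₀ _ h2.ne',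
          div_mul_cancel₀ _ h2.ne'] at h5
        exact h5
      rw [h4, hab]
      ring
  have haN := hA haA
  have hbN := hA hbA
  have hcN := hA hcA
  rw [mem_Icc] at haN hbN hcN
  -- two values
  have htwo : ∀ q x y z : ℕ, (x = q ∨ x = q + 1) → (y = q ∨ y = q + 1) → (z = q ∨ z = q + 1) →
      (y : ℝ) = (1 - l) * x + l * z → x = y ∧ y = z := by
    intro q x y z hx hy hz h
    rcases hx with rfl | rfl <;> rcases hy with rfl | rfl <;> rcases hz with rfl | rfl <;>
      first
        | exact ⟨rfl, rfl⟩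
        | (exfalso; push_cast at h; nlinarith)
  have hind : ∀ j ≤ m, a / 2 ^ (m - j) = b / 2 ^ (m - j) ∧ b / 2 ^ (m - j) = c / 2 ^ (m - j) := by
    intro j
    induction j with
    | zero =>
      intro _
      rw [Nat.sub_zero]
      have hle : ∀ n, n ≤ N → n / 2 ^ m = 0 ∨ n / 2 ^ m = 0 + 1 := by
        intro n hn
        have : n / 2 ^ m ≤ 1 := by
          calc n / 2 ^ m ≤ 2 ^ m / 2 ^ m := Nat.div_le_div_right (hn.trans hN)
            _ = 1 := Nat.div_self (by positivity)
        exact Nat.le_one_iff_eq_zero_or_eq_one.1 this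
      exact htwo 0 _ _ _ (hle a haN.2) (hle b hbN.2) (hle c hcN.2) (hdiv m le_rfl)
    | succ j ih =>
      intro hj
      obtain ⟨h1, h2⟩ := ih (by omega)
      have e : m - j = (m - (j + 1)) + 1 := by omega
      have hdd : ∀ n : ℕ, n / 2 ^ (m - j) = n / 2 ^ (m - (j + 1)) / 2 := by
        intro n
        rw [e, pow_succ, Nat.div_div_eq_div_mul]
      rw [hdd, hdd] at h1
      rw [hdd, hdd] at h2
      refine htwo (2 * (a / 2 ^ (m - (j + 1)) / 2)) _ _ _ ?_ ?_ ?_ (hdiv _ (by omega)) <;> omega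
  have := hind m le_rfl
  simp only [Nat.sub_self, pow_zero, Nat.div_one] at this
  exact hac (this.1.trans this.2)

end Pool.Agent.W5h75.FewFreq
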