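import Pool.Agent.W5h75.FewFreq.Cover

set_option autoImplicit false

open Finset

namespace Pool.Agent.W5h75.FewFreq

/-- simultaneous approximation -/
theorem dirichlet {m : ℕ} (α : Fin m → ℝ) (Q : ℕ) (hQ : 1 ≤ Q) :
    ∃ d : ℕ, 1 ≤ d ∧ d ≤ Q ^ m ∧ ∃ z : Fin m → ℤ, ∀ i, |α i * d - z i| < 1 / Q := by
  classical
  have hQ0 : (0 : ℝ) < Q := by exact_mod_cast hQ
  obtain ⟨n, hn, n', hn', hne, heq⟩ := exists_ne_map_eq_of_card_lt_of_maps_to
    (s := range (Q ^ m + 1)) (t := Fintype.piFinset fun _ : Fin m => range Q)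
    (f := fun n i => ⌊(Q : ℝ) * Int.fract (α i * n)⌋₊) (by simp) (by
      intro n _
      rw [mem_coe, Fintype.mem_piFinset]
      intro i
      rw [mem_range]
      rw [Nat.floor_lt (mul_nonneg hQ0.le (Int.fract_nonneg _))]
      have := Int.fract_lt_one (α i * n)
      nlinarith)
  have key : ∀ n n' : ℕ, n < n' → n' ≤ Q ^ m →
      (∀ i, ⌊(Q : ℝ) * Int.fract (α i * n)⌋₊ = ⌊(Q : ℝ) * Int.fract (α i * n')⌋₊) →
      ∃ d : ℕ, 1 ≤ d ∧ d ≤ Q ^ m ∧ ∃ z : Fin m → ℤ, ∀ i, |α i * d - z i| < 1 / Q := by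
    intro n n' hlt hle h
    refine ⟨n' - n, by omega, by omega, fun i => ⌊α i * n'⌋ - ⌊α i * n⌋, fun i => ?_⟩
    have h1 : (Q : ℝ) * Int.fract (α i * n) < ⌊(Q : ℝ) * Int.fract (α i * n)⌋₊ + 1 :=
      Nat.lt_floor_add_one _
    have h2 : (⌊(Q : ℝ) * Int.fract (α i * n)⌋₊ : ℝ) ≤ (Q : ℝ) * Int.fract (α i * n) :=
      Nat.floor_le (mul_nonneg hQ0.le (Int.fract_nonneg _))
    have h3 : (Q : ℝ) * Int.fract (α i * n') < ⌊(Q : ℝ) * Int.fract (α i * n')⌋₊ + 1 :=
      Nat.lt_floor_add_one _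
    have h4 : (⌊(Q : ℝ) * Int.fract (α i * n')⌋₊ : ℝ) ≤ (Q : ℝ) * Int.fract (α i * n') :=
      Nat.floor_le (mul_nonneg hQ0.le (Int.fract_nonneg _))
    rw [← h i] at h3 h4
    rw [Nat.cast_sub hlt.le]
    push_cast
    have e : α i * ((n' : ℝ) - n) - (⌊α i * n'⌋ - ⌊α i * n⌋) =
        Int.fract (α i * n') - Int.fract (α i * n) := by
      unfold Int.fract
      ring
    rw [e, lt_div_iff₀ hQ0]
    have e2 : |Int.fract (α i * n') - Int.fract (α i * n)| * (Q : ℝ) =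
        |(Int.fract (α i * n') - Int.fract (α i * n)) * Q| := by
      rw [abs_mul, abs_of_pos hQ0]
    rw [e2, abs_lt]
    constructor <;> nlinarith
  have heq' : ∀ i, ⌊(Q : ℝ) * Int.fract (α i * n)⌋₊ = ⌊(Q : ℝ) * Int.fract (α i * n')⌋₊ :=
    fun i => congrFun heq i
  simp only [mem_range] at hn hn'
  rcases lt_or_gt_of_ne hne with h | h
  · exact key n n' h (by omega) heq'
  · exact key n' n h (by omega) fun i => (heq' i).symm

/-- one coordinate: along less than `Q` steps of length less than `1 / Q` the integer part changes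
at most once -/
theorem floor_step {y θ : ℝ} {Q : ℕ} (hθ : |θ| < 1 / Q) {j j' : ℕ} (hjj : j ≤ j') (hj' : j' < Q) :
    (⌊y + j * θ⌋ - ⌊y⌋).natAbs ≤ (⌊y + j' * θ⌋ - ⌊y⌋).natAbs ∧
      (⌊y + j' * θ⌋ - ⌊y⌋).natAbs ≤ 1 ∧
      ((⌊y + j * θ⌋ - ⌊y⌋).natAbs = (⌊y + j' * θ⌋ - ⌊y⌋).natAbs → ⌊y + j * θ⌋ = ⌊y + j' * θ⌋) := by
  have hQ0 : (0 : ℝ) < Q := by exact_mod_cast (by omega : 0 < Q)
  have hj'Q : (j' : ℝ) ≤ Q := by exact_mod_cast hj'.le
  have hjj' : (j : ℝ) ≤ j' := by exact_mod_cast hjj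
  have hj0 : (0 : ℝ) ≤ j := Nat.cast_nonneg _
  have hb : (Q : ℝ) * |θ| < 1 := by
    rw [lt_div_iff₀ hQ0] at hθ
    linarith
  rcases le_or_gt 0 θ with h0 | h0
  · rw [abs_of_nonneg h0] at hb
    have h1 : ⌊y⌋ ≤ ⌊y + j * θ⌋ := Int.floor_mono (by nlinarith)
    have h2 : ⌊y + j * θ⌋ ≤ ⌊y + j' * θ⌋ := Int.floor_mono (by nlinarith)
    have h3 : ⌊y + j' * θ⌋ ≤ ⌊y⌋ + 1 := by
      rw [← Int.floor_add_one]
      exact Int.floor_mono (by nlinarith)
    omega
  · rw [abs_of_neg h0] at hb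
    have h1 : ⌊y + j * θ⌋ ≤ ⌊y⌋ := Int.floor_mono (by nlinarith)
    have h2 : ⌊y + j' * θ⌋ ≤ ⌊y + j * θ⌋ := Int.floor_mono (by nlinarith)
    have h3 : ⌊y⌋ - 1 ≤ ⌊y + j' * θ⌋ := by
      rw [← Int.floor_sub_one]
      exact Int.floor_mono (by nlinarith)
    omega

/-- the labelling of a block -/
theorem exists_label {m : ℕ} (α β : Fin m → ℝ) (S : Set (Fin (m + 1) → ℝ)) (N K : ℕ)
    (hS : LineComplexity S K) (Q d a : ℕ) (z : Fin m → ℤ) (hz : ∀ i, |α i * d - z i| < 1 / Q) :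
    ∃ g : ℕ → ℕ,
      (∀ j ∈ (range Q).filter (fun j => a + j * d ∈ cut α β S N), g j < (m + 1) * K) ∧
      ∀ j ∈ (range Q).filter (fun j => a + j * d ∈ cut α β S N),
      ∀ j' ∈ (range Q).filter (fun j => a + j * d ∈ cut α β S N), g j = g j' →
        ∀ i, j ≤ i → i ≤ j' → i ∈ (range Q).filter (fun j => a + j * d ∈ cut α β S N) := by
  classical
  unfold LineComplexity at hS
  choose I hI1 hI2 using hS
  set θ : Fin m → ℝ := fun i => α i * d - z i with hθ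
  set y : Fin m → ℝ := fun i => α i * a + β i with hy
  set F : ℕ → Fin m → ℤ := fun j i => ⌊y i + j * θ i⌋ with hF
  set v : Fin (m + 1) → ℝ := Fin.cons (d : ℝ) θ with hv
  set x : ℕ → Fin (m + 1) → ℝ := fun j => Fin.cons (a : ℝ) fun i => y i - F j i with hx
  set s : ℕ → ℕ := fun j => ∑ i, (F j i - ⌊y i⌋).natAbs with hs
  have hpt : ∀ j : ℕ, pt α β (a + j * d) = x j + (j : ℝ) • v := by
    intro j
    funext i
    refine Fin.cases ?_ (fun i => ?_) i
    · simp [pt, hx, hv]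
    · simp only [pt, hx, hv, Fin.cons_succ, Pi.add_apply, Pi.smul_apply, smul_eq_mul]
      have e : α i * ((a + j * d : ℕ) : ℝ) + β i = (y i + j * θ i) + ((j * z i : ℤ) : ℝ) := by
        simp only [hy, hθ]
        push_cast
        ring
      rw [e, Int.fract_add_intCast, Int.fract]
      simp only [hF]
      ring
  have hmono : ∀ j j' : ℕ, j ≤ j' → j' < Q → s j = s j' → ∀ i, j ≤ i → i ≤ j' → F i = F j := by
    intro j j' hjj hj' hss i hji hij
    have h1 : ∀ c ∈ (univ : Finset (Fin m)),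
        (F j c - ⌊y c⌋).natAbs ≤ (F i c - ⌊y c⌋).natAbs := fun c _ =>
      (floor_step (hz c) hji (by omega)).1
    have h2 : ∀ c ∈ (univ : Finset (Fin m)),
        (F i c - ⌊y c⌋).natAbs ≤ (F j' c - ⌊y c⌋).natAbs := fun c _ =>
      (floor_step (hz c) hij (by omega)).1
    have h3 : ∑ c, (F j c - ⌊y c⌋).natAbs = ∑ c, (F i c - ⌊y c⌋).natAbs := by
      apply le_antisymm (sum_le_sum h1)
      have := sum_le_sum h2
      have hss' : ∑ c, (F j c - ⌊y c⌋).natAbs = ∑ c, (F j' c - ⌊y c⌋).natAbs := hss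
      rw [hss']
      exact this
    have h4 := (sum_eq_sum_iff_of_le h1).1 h3
    funext c
    exact ((floor_step (hz c) hji (by omega)).2.2 (h4 c (mem_univ _))).symm
  have hsle : ∀ j, j < Q → s j ≤ m := by
    intro j hj
    calc s j ≤ ∑ _i : Fin m, 1 := sum_le_sum fun c _ => (floor_step (hz c) le_rfl hj).2.1
      _ = m := by simp
  have hex : ∀ j : ℕ, ∃ c : ℕ, pt α β (a + j * d) ∈ S →
      ∃ h : c < K, (j : ℝ) ∈ I (x j) v ⟨c, h⟩ := by
    intro j
    by_cases hj : pt α β (a + j * d) ∈ S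
    · rw [hpt] at hj
      obtain ⟨c, hc⟩ := (hI2 (x j) v j).1 hj
      exact ⟨c, fun _ => ⟨c.2, hc⟩⟩
    · exact ⟨0, fun h => absurd h hj⟩
  choose c hc using hex
  refine ⟨fun j => s j * K + c j, ?_, ?_⟩
  · intro j hj
    simp only [mem_filter, mem_range, cut] at hj
    obtain ⟨h, -⟩ := hc j hj.2.2
    have h1 := hsle j hj.1
    have h2 : s j * K ≤ m * K := Nat.mul_le_mul_right _ h1
    simp only []
    rw [Nat.add_mul]
    omega
  · intro j hj j' hj' hg i hji hij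
    simp only [mem_filter, mem_range, cut, mem_Icc] at hj hj' ⊢
    obtain ⟨h, hcj⟩ := hc j hj.2.2
    obtain ⟨h', hcj'⟩ := hc j' hj'.2.2
    have hK : 0 < K := by omega
    have hg' : s j * K + c j = s j' * K + c j' := hg
    have hss : s j = s j' := by
      have e1 : (s j * K + c j) / K = s j := by
        rw [mul_comm, Nat.mul_add_div hK, Nat.div_eq_of_lt h, add_zero]
      have e2 : (s j' * K + c j') / K = s j' := by
        rw [mul_comm, Nat.mul_add_div hK, Nat.div_eq_of_lt h', add_zero]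
      rw [← e1, ← e2, hg']
    have hcc : c j = c j' := by
      rw [hss] at hg'
      omega
    have hFi : F i = F j := hmono j j' (hji.trans hij) hj'.1 hss i hji hij
    have hFj' : F j' = F j := hmono j j' (hji.trans hij) hj'.1 hss j' (hji.trans hij) le_rfl
    have hxi : x i = x j := by simp only [hx, hFi]
    have hxj' : x j' = x j := by simp only [hx, hFj']
    have hmem : (i : ℝ) ∈ I (x j) v ⟨c j, h⟩ := by
      have hcj'' : (j' : ℝ) ∈ I (x j) v ⟨c j, h⟩ := by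
        rw [← hxj']
        convert hcj' using 2
        exact Fin.ext hcc
      exact (hI1 (x j) v ⟨c j, h⟩).ordConnected.out hcj hcj''
        ⟨by exact_mod_cast hji, by exact_mod_cast hij⟩
    have hji' : a + j * d ≤ a + i * d := Nat.add_le_add_left (Nat.mul_le_mul_right _ hji) _
    have hij' : a + i * d ≤ a + j' * d := Nat.add_le_add_left (Nat.mul_le_mul_right _ hij) _
    refine ⟨by omega, ⟨by omega, by omega⟩, ?_⟩
    rw [hpt, hxi]
    exact (hI2 (x j) v i).2 ⟨_, hmem⟩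

end Pool.Agent.W5h75.FewFreq
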