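import Pool.Agent.W5h75.FewFreq.Main

set_option autoImplicit false

open Finset

namespace Pool.Agent.W5h75.FewFreq

/-- **Convex conditions.** A set without `k`-term progressions which is given by `m` frequencies and
`K` convex sets has at most `K (k - 1) ^ (m + 1)` elements. -/
theorem convex_case {k m K N : ℕ} (hk : 2 ≤ k) (α β : Fin m → ℝ)
    (C : Fin K → Set (Fin (m + 1) → ℝ)) (hC : ∀ c, Convex ℝ (C c))
    (hA : APFree k (cut α β (⋃ c, C c) N)) :
    (cut α β (⋃ c, C c) N).card ≤ K * (k - 1) ^ (m + 1) := by
  classical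
  have hex : ∀ n : ℕ, ∃ c : ℕ, pt α β n ∈ (⋃ c, C c) → ∃ h : c < K, pt α β n ∈ C ⟨c, h⟩ := by
    intro n
    by_cases hn : pt α β n ∈ ⋃ c, C c
    · obtain ⟨c, hc⟩ := Set.mem_iUnion.1 hn
      exact ⟨c, fun _ => ⟨c.2, hc⟩⟩
    · exact ⟨0, fun h => absurd h hn⟩
  choose c hc using hex
  have hq : 0 < k - 1 := by omega
  set q := k - 1 with hqd
  let f : ℕ → ℕ × (Fin (m + 1) → ℕ) := fun n =>
    (c n, Fin.cons (n % q) fun i => (⌊α i * n + β i⌋ % (q : ℤ)).toNat)
  have hmaps : ∀ n ∈ cut α β (⋃ c, C c) N,
      f n ∈ range K ×ˢ Fintype.piFinset fun _ : Fin (m + 1) => range q := by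
    intro n hn
    simp only [cut, mem_filter] at hn
    obtain ⟨h, -⟩ := hc n hn.2
    rw [mem_product, mem_range, Fintype.mem_piFinset]
    refine ⟨h, fun i => ?_⟩
    refine Fin.cases ?_ (fun i => ?_) i
    · simp only [f, Fin.cons_zero, mem_range]
      exact Nat.mod_lt _ hq
    · simp only [f, Fin.cons_succ, mem_range]
      have h1 := Int.emod_nonneg ⌊α i * n + β i⌋ (by exact_mod_cast hq.ne' : (q : ℤ) ≠ 0)
      have h2 := Int.emod_lt_of_pos ⌊α i * n + β i⌋ (by exact_mod_cast hq : (0 : ℤ) < q)
      omega
  have hinj : Set.InjOn f (cut α β (⋃ c, C c) N) := by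
    have key : ∀ n n' : ℕ, n ∈ cut α β (⋃ c, C c) N → n' ∈ cut α β (⋃ c, C c) N → f n = f n' →
        ¬ n < n' := by
      intro n n' hn hn' hf hlt
      simp only [cut, mem_filter, mem_Icc] at hn hn'
      obtain ⟨h, hcn⟩ := hc n hn.2
      obtain ⟨h', hcn'⟩ := hc n' hn'.2
      have hcc : c n = c n' := congrArg Prod.fst hf
      have hcn'' : pt α β n' ∈ C ⟨c n, h⟩ := by
        convert hcn' using 2
        exact Fin.ext hcc
      have hmod : n % q = n' % q := by
        have := congrFun (congrArg Prod.snd hf) 0
        simpa [f] using this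
      have hmodi : ∀ i, ⌊α i * n + β i⌋ % (q : ℤ) = ⌊α i * n' + β i⌋ % (q : ℤ) := by
        intro i
        have h0 := congrFun (congrArg Prod.snd hf) i.succ
        simp only [f, Fin.cons_succ] at h0
        have h1 := Int.emod_nonneg ⌊α i * n + β i⌋ (by exact_mod_cast hq.ne' : (q : ℤ) ≠ 0)
        have h2 := Int.emod_nonneg ⌊α i * n' + β i⌋ (by exact_mod_cast hq.ne' : (q : ℤ) ≠ 0)
        omega
      obtain ⟨e, he⟩ : q ∣ n' - n := (Nat.modEq_iff_dvd' hlt.le).1 hmod
      have he0 : 0 < e := by
        rcases Nat.eq_zero_or_pos e with rfl | h0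
        · omega
        · exact h0
      have hei : ∀ i, ∃ f : ℤ, ⌊α i * n' + β i⌋ - ⌊α i * n + β i⌋ = q * f := fun i =>
        Int.ModEq.dvd (hmodi i)
      choose g hg using hei
      have hqR : (0 : ℝ) < q := by exact_mod_cast hq
      have hn'e : (n' : ℝ) = n + q * e := by
        have : n' = n + q * e := by omega
        exact_mod_cast this
      refine hA n e he0 fun j hj => ?_
      have hjq : (j : ℝ) ≤ q := by
        have : j ≤ q := by omega
        exact_mod_cast this
      set t : ℝ := j / q with ht
      have ht0 : 0 ≤ t := by positivity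
      have ht1 : t ≤ 1 := by
        rw [ht, div_le_one hqR]
        exact hjq
      have hpt : pt α β (n + j * e) = (1 - t) • pt α β n + t • pt α β n' := by
        funext i
        refine Fin.cases ?_ (fun i => ?_) i
        · simp only [pt, Fin.cons_zero, Pi.add_apply, Pi.smul_apply, smul_eq_mul]
          rw [hn'e, ht]
          push_cast
          field_simp
          ring
        · simp only [pt, Fin.cons_succ, Pi.add_apply, Pi.smul_apply, smul_eq_mul]
          have hfl : ((⌊α i * n' + β i⌋ : ℤ) : ℝ) = ⌊α i * n + β i⌋ + q * g i := by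
            have := hg i
            have h2 : ⌊α i * n' + β i⌋ = ⌊α i * n + β i⌋ + q * g i := by omega
            exact_mod_cast h2
          have e1 : α i * ((n + j * e : ℕ) : ℝ) + β i =
              ((1 - t) * Int.fract (α i * n + β i) + t * Int.fract (α i * n' + β i)) +
                ((⌊α i * n + β i⌋ + j * g i : ℤ) : ℝ) := by
            unfold Int.fract
            rw [hfl, hn'e, ht]
            push_cast
            field_simp
            ring
          rw [e1, Int.fract_add_intCast, Int.fract_eq_self]
          have f1 := Int.fract_nonneg (α i * n + β i)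
          have f2 := Int.fract_nonneg (α i * n' + β i)
          have f3 := Int.fract_lt_one (α i * n + β i)
          have f4 := Int.fract_lt_one (α i * n' + β i)
          constructor
          · have := mul_nonneg (by linarith : 0 ≤ 1 - t) f1
            have := mul_nonneg ht0 f2
            linarith
          · rcases eq_or_lt_of_le ht0 with h0 | h0
            · rw [← h0]
              linarith
            · have a1 := mul_lt_mul_of_pos_left f4 h0
              have a2 := mul_le_mul_of_nonneg_left f3.le (by linarith : 0 ≤ 1 - t)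
              linarith
      have hle : n + j * e ≤ n' := by
        have h1 : j * e ≤ q * e := Nat.mul_le_mul_right _ (by omega)
        omega
      simp only [cut, mem_filter, mem_Icc]
      refine ⟨⟨by omega, by omega⟩, Set.mem_iUnion.2 ⟨⟨c n, h⟩, ?_⟩⟩
      rw [hpt]
      exact hC ⟨c n, h⟩ hcn hcn'' (by linarith) ht0 (by ring)
    intro n hn n' hn' hf
    have k1 := key n n' hn hn' hf
    have k2 := key n' n hn' hn hf.symm
    omega
  have := card_le_card_of_injOn f hmaps hinj
  simpa using this

end Pool.Agent.W5h75.FewFreq
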