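import Pool.Agent.W5h75.FewFreq.Digits

set_option autoImplicit false

open Finset

namespace Pool.Agent.W5h75.FewFreq

theorem fract_digit (g i n : ℕ) :
    Int.fract ((1 / (g : ℝ) ^ (i + 1)) * n + 0) = ((n % g ^ (i + 1) : ℕ) : ℝ) / (g : ℝ) ^ (i + 1) := by
  have e : (1 / (g : ℝ) ^ (i + 1)) * n + 0 = (n : ℝ) / ((g ^ (i + 1) : ℕ) : ℝ) := by
    push_cast
    ring
  rw [e, Int.fract_div_natCast_eq_div_natCast_mod]
  push_cast
  rfl

/-- `{n / g ^ (i + 1)} < b / g` means that the digit at position `i` is less than `b` -/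
theorem fract_digit_lt (g b i n : ℕ) (hg : 0 < g) :
    Int.fract ((1 / (g : ℝ) ^ (i + 1)) * n + 0) < b / g ↔ n % g ^ (i + 1) < b * g ^ i := by
  have hg0 : (0 : ℝ) < g := by exact_mod_cast hg
  rw [fract_digit g i n, div_lt_div_iff₀ (by positivity) hg0]
  have e : (b : ℝ) * (g : ℝ) ^ (i + 1) = (b * (g : ℝ) ^ i) * g := by ring
  rw [e, mul_lt_mul_iff_of_pos_right hg0]
  exact_mod_cast Iff.rfl

/-- the bound `K (k - 1) ^ (m + 1)` is attained -/
theorem convex_sharp (k m K : ℕ) (hk : 3 ≤ k) :
    ∃ (N : ℕ) (α : Fin m → ℝ) (C : Fin K → Set (Fin (m + 1) → ℝ)), (∀ c, Convex ℝ (C c)) ∧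
      APFree k (cut α 0 (⋃ c, C c) N) ∧
      (cut α 0 (⋃ c, C c) N).card = K * (k - 1) ^ (m + 1) := by
  classical
  obtain ⟨p, hkp, hp⟩ := Nat.exists_infinite_primes k
  have hp0 : 0 < p := hp.pos
  set W := (k - 1) * p ^ m with hW
  have hW0 : 0 < W := Nat.mul_pos (by omega) (Nat.pow_pos hp0)
  let P : ℕ → ℕ := fun c => 4 ^ (c + 1) * W
  have hPmono : ∀ c c' : ℕ, c < c' → 2 * (P c + W) < P c' := by
    intro c c' h
    have h1 : 4 ^ (c + 1 + 1) ≤ 4 ^ (c' + 1) := Nat.pow_le_pow_right (by omega) (by omega)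
    have h2 : 4 ≤ 4 ^ (c + 1) := by
      calc 4 = 4 ^ 1 := by norm_num
        _ ≤ _ := Nat.pow_le_pow_right (by omega) (by omega)
    calc 2 * (P c + W) = (2 * 4 ^ (c + 1) + 2) * W := by simp only [P]; ring
      _ < (4 ^ (c + 1 + 1)) * W := Nat.mul_lt_mul_of_pos_right (by rw [pow_succ 4 (c + 1)]; omega) hW0
      _ ≤ P c' := Nat.mul_le_mul_right _ h1
  have hPp : ∀ c, p ^ m ∣ P c := fun c => ⟨4 ^ (c + 1) * (k - 1), by simp only [P, hW]; ring⟩
  have hPW : ∀ c, W < P c := by
    intro c
    have h2 : 4 ≤ 4 ^ (c + 1) := by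
      calc 4 = 4 ^ 1 := by norm_num
        _ ≤ _ := Nat.pow_le_pow_right (by omega) (by omega)
    have : 4 * W ≤ 4 ^ (c + 1) * W := Nat.mul_le_mul_right _ h2
    simp only [P]
    omega
  let α : Fin m → ℝ := fun i => 1 / (p : ℝ) ^ ((i : ℕ) + 1)
  let C : Fin K → Set (Fin (m + 1) → ℝ) := fun c =>
    {x | (P c : ℝ) ≤ x 0 ∧ x 0 < (P c : ℝ) + W ∧ ∀ i : Fin m, x i.succ < ((k - 1 : ℕ) : ℝ) / p}
  have hmem : ∀ n, n ∈ cut α 0 (⋃ c, C c) (P K) ↔
      ∃ c < K, P c ≤ n ∧ n - P c ∈ dig p (k - 1) (m + 1) := by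
    intro n
    simp only [cut, mem_filter, mem_Icc, Set.mem_iUnion]
    have hC : ∀ c : Fin K, pt α 0 n ∈ C c ↔ P c ≤ n ∧ n < P c + W ∧
        ∀ i : Fin m, n % p ^ ((i : ℕ) + 1) < (k - 1) * p ^ (i : ℕ) := by
      intro c
      simp only [C, Set.mem_ofPred_eq, pt, Fin.cons_zero, Fin.cons_succ, α, Pi.zero_apply]
      refine and_congr ?_ (and_congr ?_ ?_)
      · exact_mod_cast Iff.rfl
      · exact_mod_cast Iff.rfl
      · exact forall_congr' fun i => fract_digit_lt p (k - 1) i n hp0
    have hdig : ∀ c : ℕ, P c ≤ n → (n - P c ∈ dig p (k - 1) (m + 1) ↔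
        n < P c + W ∧ ∀ i : Fin m, n % p ^ ((i : ℕ) + 1) < (k - 1) * p ^ (i : ℕ)) := by
      intro c hc
      rw [mem_dig]
      have hpm : (k - 1) * p ^ m ≤ p ^ (m + 1) := by
        rw [pow_succ, mul_comm (p ^ m)]
        exact Nat.mul_le_mul_right _ (by omega)
      constructor
      · rintro ⟨h1, h2⟩
        refine ⟨?_, fun i => ?_⟩
        · have h3 := h2 m (by omega)
          rw [Nat.mod_eq_of_lt h1] at h3
          omega
        · have h3 := h2 i (by omega)
          obtain ⟨e, he⟩ := (pow_dvd_pow p (show (i : ℕ) + 1 ≤ m by omega)).trans (hPp c)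
          have : n = (n - P c) + p ^ ((i : ℕ) + 1) * e := by omega
          rw [this, Nat.add_mul_mod_self_left]
          exact h3
      · rintro ⟨h1, h2⟩
        have h4 : n - P c < p ^ (m + 1) := by omega
        refine ⟨h4, fun i hi => ?_⟩
        rcases Nat.lt_succ_iff_lt_or_eq.1 hi with h | rfl
        · have h3 := h2 ⟨i, h⟩
          obtain ⟨e, he⟩ := (pow_dvd_pow p (show i + 1 ≤ m by omega)).trans (hPp c)
          have h5 : n = (n - P c) + p ^ (i + 1) * e := by omega
          simp only [] at h3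
          rw [h5, Nat.add_mul_mod_self_left] at h3
          exact h3
        · rw [Nat.mod_eq_of_lt h4]
          omega
    constructor
    · rintro ⟨-, c, hc⟩
      rw [hC] at hc
      exact ⟨c, c.2, hc.1, (hdig c hc.1).2 hc.2⟩
    · rintro ⟨c, hc, h1, h2⟩
      have h3 := (hdig c h1).1 h2
      refine ⟨⟨?_, ?_⟩, ⟨c, hc⟩, ?_⟩
      · have := hPW c
        omega
      · have := hPmono c K hc
        omega
      · rw [hC]
        exact ⟨h1, h3⟩
  have hdigW : ∀ n, n ∈ dig p (k - 1) (m + 1) → n < W := by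
    intro n hn
    rw [mem_dig] at hn
    have h3 := hn.2 m (by omega)
    rw [Nat.mod_eq_of_lt hn.1] at h3
    exact h3
  have hfree : APFree k (cut α 0 (⋃ c, C c) (P K)) := by
    intro a d hd h
    have h' : ∀ j, ∃ c, j < k → c < K ∧ P c ≤ a + j * d ∧
        a + j * d - P c ∈ dig p (k - 1) (m + 1) := by
      intro j
      by_cases hj : j < k
      · obtain ⟨c, hc⟩ := (hmem _).1 (h j hj)
        exact ⟨c, fun _ => ⟨hc.1, hc.2.1, hc.2.2⟩⟩
      · exact ⟨0, fun h => absurd h hj⟩
    choose c hc using h'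
    have hrange : ∀ j < k, P (c j) ≤ a + j * d ∧ a + j * d < P (c j) + W := by
      intro j hj
      have h1 := hc j hj
      have h2 := hdigW _ h1.2.2
      omega
    -- consecutive terms after the first lie in the same cluster
    have hstep : ∀ j, 1 ≤ j → j + 1 < k → c (j + 1) = c j := by
      intro j hj hjk
      have h1 := hrange j (by omega)
      have h2 := hrange (j + 1) hjk
      have e : a + (j + 1) * d = a + j * d + d := by ring
      have hjd : d ≤ j * d := Nat.le_mul_of_pos_left _ hj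
      rw [e] at h2
      rcases lt_trichotomy (c (j + 1)) (c j) with h3 | h3 | h3
      · have := hPmono _ _ h3
        omega
      · exact h3
      · have := hPmono _ _ h3
        omega
    have hdW : d < W := by
      have h1 := hrange 1 (by omega)
      have h2 := hrange 2 (by omega)
      have h3 := hstep 1 le_rfl (by omega)
      simp only [Nat.reduceAdd] at h3
      rw [h3] at h2
      omega
    have hc01 : c 1 = c 0 := by
      have h1 := hrange 0 (by omega)
      have h2 := hrange 1 (by omega)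
      rcases lt_trichotomy (c 1) (c 0) with h3 | h3 | h3
      · have := hPmono _ _ h3
        omega
      · exact h3
      · have := hPmono _ _ h3
        omega
    have hall : ∀ j < k, c j = c 0 := by
      intro j
      induction j with
      | zero => exact fun _ => rfl
      | succ j ih =>
        intro hj
        rcases Nat.eq_zero_or_pos j with rfl | hj0
        · exact hc01
        · rw [hstep j hj0 hj]
          exact ih (by omega)
    have h0 := hrange 0 (by omega)
    refine dig_apfree (m := m + 1) hp (by omega) hkp (a - P (c 0)) d hd fun j hj => ?_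
    have h1 := (hc j hj).2.2
    rw [hall j hj] at h1
    have e : a - P (c 0) + j * d = a + j * d - P (c 0) := by omega
    rw [e]
    exact h1
  have hC : ∀ c, Convex ℝ (C c) := by
    intro c
    have e : C c = ((LinearMap.proj (R := ℝ) (φ := fun _ : Fin (m + 1) => ℝ) 0) ⁻¹'
        Set.Ico (P c : ℝ) ((P c : ℝ) + W)) ∩ ⋂ i : Fin m,
        ((LinearMap.proj (R := ℝ) (φ := fun _ : Fin (m + 1) => ℝ) i.succ) ⁻¹'
          Set.Iio (((k - 1 : ℕ) : ℝ) / p)) := by
      ext x
      simp only [C, Set.mem_ofPred_eq, Set.mem_inter_iff, Set.mem_preimage, LinearMap.proj_apply,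
        Set.mem_Ico, Set.mem_iInter, Set.mem_Iio, and_assoc]
    rw [e]
    refine Convex.inter ?_ (convex_iInter fun i => ?_)
    · exact (convex_Ico _ _).linear_preimage _
    · exact (convex_Iio _).linear_preimage _
  refine ⟨P K, α, C, hC, hfree, le_antisymm ?_ ?_⟩
  · exact convex_case (by omega) α 0 C hC hfree
  · have hcard : (range K ×ˢ dig p (k - 1) (m + 1)).card = K * (k - 1) ^ (m + 1) := by
      rw [card_product, card_range, card_dig p (k - 1) (m + 1) hp0 (by omega)]
    rw [← hcard]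
    refine card_le_card_of_injOn (fun q => P q.1 + q.2) ?_ ?_
    · intro q hq
      rw [mem_coe, mem_product, mem_range] at hq
      rw [mem_coe, hmem]
      exact ⟨q.1, hq.1, Nat.le_add_right _ _, by simpa using hq.2⟩
    · intro q hq q' hq' h
      rw [mem_coe, mem_product, mem_range] at hq hq'
      have h1 := hdigW _ hq.2
      have h2 := hdigW _ hq'.2
      have h3 : P q.1 + q.2 = P q'.1 + q'.2 := h
      rcases lt_trichotomy q.1 q'.1 with h4 | h4 | h4
      · have := hPmono _ _ h4
        omega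
      · rw [h4] at h3
        exact Prod.ext h4 (by omega)
      · have := hPmono _ _ h4
        omega

end Pool.Agent.W5h75.FewFreq
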