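import Pool.Agent.W5h75.FewFreq.Defs

set_option autoImplicit false

open Finset

namespace Pool.Agent.W5h75.FewFreq

/-- the starting points of the maximal runs of consecutive integers in `J` -/
def starts (J : Finset ℕ) : Finset ℕ := J.filter fun j => j = 0 ∨ j - 1 ∉ J

theorem mem_starts {J : Finset ℕ} {j : ℕ} : j ∈ starts J ↔ j ∈ J ∧ (j = 0 ∨ j - 1 ∉ J) := by
  simp [starts]

/-- `J` is covered by at most `|J| / L + |starts J|` windows of length `L` -/
theorem exists_windows (L : ℕ) (hL : 1 ≤ L) (J : Finset ℕ) :
    ∃ W : Finset ℕ, L * W.card ≤ J.card + L * (starts J).card ∧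
      ∀ j ∈ J, ∃ w ∈ W, w ≤ j ∧ j < w + L := by
  classical
  induction h : J.card using Nat.strong_induction_on generalizing J with
  | _ n ih =>
    subst h
    rcases J.eq_empty_or_nonempty with rfl | hJ
    · exact ⟨∅, by simp, by simp⟩
    set a := J.min' hJ with ha
    have haJ : a ∈ J := J.min'_mem hJ
    have hmin : ∀ j ∈ J, a ≤ j := fun j hj => J.min'_le j hj
    have hast : a ∈ starts J := by
      rw [mem_starts]
      refine ⟨haJ, ?_⟩
      by_contra hc
      push Not at hc
      have := hmin _ hc.2
      omega
    by_cases hW : ∀ i, a ≤ i → i < a + L → i ∈ J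
    · -- the whole window lies in `J`
      set J' := J.filter fun j => a + L ≤ j with hJ'
      have hsplit : J.card = L + J'.card := by
        have h1 := card_filter_add_card_filter_not (s := J) (fun j => a + L ≤ j)
        have h2 : (J.filter fun j => ¬ (a + L ≤ j)) = Ico a (a + L) := by
          ext j
          simp only [mem_filter, mem_Ico, not_le]
          constructor
          · rintro ⟨hj, hj'⟩
            exact ⟨hmin j hj, hj'⟩
          · rintro ⟨h3, h4⟩
            exact ⟨hW j h3 h4, h4⟩
        rw [h2, Nat.card_Ico] at h1
        simp only [hJ']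
        omega
      have hst : (starts J').card ≤ (starts J).card := by
        have hsub : starts J' ⊆ insert (a + L) ((starts J).erase a) := by
          intro j hj
          rw [mem_starts] at hj
          simp only [hJ', mem_filter] at hj
          simp only [mem_insert, mem_erase, mem_starts]
          by_cases hja : j = a + L
          · exact Or.inl hja
          · right
            refine ⟨by omega, hj.1.1, ?_⟩
            right
            rcases hj.2 with h0 | h0
            · omega
            · intro hc
              exact h0 ⟨hc, by omega⟩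
        have h1 := card_le_card hsub
        have h2 := card_insert_le (a + L) ((starts J).erase a)
        have h3 := card_erase_of_mem hast
        have h4 : 0 < (starts J).card := card_pos.2 ⟨a, hast⟩
        omega
      obtain ⟨W, hWc, hWcov⟩ := ih J'.card (by omega) J' rfl
      refine ⟨insert a W, ?_, ?_⟩
      · have h1 := card_insert_le a W
        have h2 : L * (insert a W).card ≤ L * (W.card + 1) := Nat.mul_le_mul_left _ h1
        have h3 : L * (starts J').card ≤ L * (starts J).card := Nat.mul_le_mul_left _ hst
        rw [Nat.mul_add] at h2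
        omega
      · intro j hj
        by_cases hja : a + L ≤ j
        · obtain ⟨w, hw, hw'⟩ := hWcov j (by simp [hJ', hj, hja])
          exact ⟨w, mem_insert_of_mem hw, hw'⟩
        · exact ⟨a, mem_insert_self _ _, hmin j hj, by omega⟩
    · -- the first run is shorter than the window
      push Not at hW
      have hex : ∃ e, a ≤ e ∧ e < a + L ∧ e ∉ J := hW
      classical
      set e := Nat.find hex with he
      obtain ⟨hae, heL, heJ⟩ := Nat.find_spec hex
      have hlt : ∀ i, a ≤ i → i < e → i ∈ J := by
        intro i hi hie
        by_contra hc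
        exact Nat.find_min hex hie ⟨hi, by omega, hc⟩
      set J' := J.filter fun j => e ≤ j with hJ'
      have hcard : J'.card < J.card := by
        refine card_lt_card ⟨filter_subset _ _, fun hc => ?_⟩
        have := hc haJ
        simp only [hJ', mem_filter] at this
        exact heJ (le_antisymm hae this.2 ▸ haJ)
      have hst : (starts J').card + 1 ≤ (starts J).card := by
        have hsub : starts J' ⊆ (starts J).erase a := by
          intro j hj
          rw [mem_starts] at hj
          simp only [hJ', mem_filter] at hj
          have hje : j ≠ e := by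
            rintro rfl
            exact heJ hj.1.1
          have hjea : a < j := by omega
          simp only [mem_erase, mem_starts]
          refine ⟨by omega, hj.1.1, ?_⟩
          right
          rcases hj.2 with h0 | h0
          · omega
          · intro hc
            exact h0 ⟨hc, by omega⟩
        have h1 := card_le_card hsub
        have h3 := card_erase_of_mem hast
        have h4 : 0 < (starts J).card := card_pos.2 ⟨a, hast⟩
        omega
      obtain ⟨W, hWc, hWcov⟩ := ih J'.card hcard J' rfl
      refine ⟨insert a W, ?_, ?_⟩
      · have h1 := card_insert_le a W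
        have h2 : L * (insert a W).card ≤ L * (W.card + 1) := Nat.mul_le_mul_left _ h1
        have h3 : L * ((starts J').card + 1) ≤ L * (starts J).card := Nat.mul_le_mul_left _ hst
        rw [Nat.mul_add] at h2 h3
        omega
      · intro j hj
        by_cases hja : e ≤ j
        · obtain ⟨w, hw, hw'⟩ := hWcov j (by simp [hJ', hj, hja])
          exact ⟨w, mem_insert_of_mem hw, hw'⟩
        · exact ⟨a, mem_insert_self _ _, hmin j hj, by omega⟩

/-- a set with bounded intersection with windows -/
theorem card_le_of_windows (L ρ : ℕ) (hL : 1 ≤ L) (J X : Finset ℕ) (hX : X ⊆ J)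
    (hρ : ∀ w, (X.filter fun j => w ≤ j ∧ j < w + L).card ≤ ρ) :
    L * X.card ≤ (J.card + L * (starts J).card) * ρ := by
  classical
  obtain ⟨W, hW, hcov⟩ := exists_windows L hL J
  have h1 : X.card ≤ W.card * ρ := by
    have hsub : X ⊆ W.biUnion fun w => X.filter fun j => w ≤ j ∧ j < w + L := by
      intro j hj
      obtain ⟨w, hw, hw'⟩ := hcov j (hX hj)
      simp only [mem_biUnion, mem_filter]
      exact ⟨w, hw, hj, hw'⟩
    calc X.card ≤ _ := card_le_card hsub
      _ ≤ ∑ w ∈ W, (X.filter fun j => w ≤ j ∧ j < w + L).card := card_biUnion_le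
      _ ≤ ∑ w ∈ W, ρ := sum_le_sum fun w _ => hρ w
      _ = W.card * ρ := by simp
  calc L * X.card ≤ L * (W.card * ρ) := Nat.mul_le_mul_left _ h1
    _ = (L * W.card) * ρ := by ring
    _ ≤ _ := Nat.mul_le_mul_right _ hW

/-- A labelling of `J` by `R` labels such that the hull of each class lies in `J` bounds the number
of runs. -/
theorem card_starts_le {J : Finset ℕ} {R : ℕ} (g : ℕ → ℕ) (hg : ∀ j ∈ J, g j < R)
    (hull : ∀ j ∈ J, ∀ j' ∈ J, g j = g j' → ∀ i, j ≤ i → i ≤ j' → i ∈ J) :
    (starts J).card ≤ R := by
  classical
  have : (starts J).card ≤ (range R).card := by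
    refine card_le_card_of_injOn g ?_ ?_
    · intro j hj
      have hj' : j ∈ starts J := hj
      rw [mem_starts] at hj'
      simpa using hg j hj'.1
    · intro j hj j' hj' hjj
      have hj1 : j ∈ starts J := hj
      have hj2 : j' ∈ starts J := hj'
      rw [mem_starts] at hj1 hj2
      have key : ∀ a b : ℕ, a ∈ J → b ∈ J → (b = 0 ∨ b - 1 ∉ J) → g a = g b → ¬ a < b := by
        intro a b ha hb hb' hab hlt
        rcases hb' with h0 | h0
        · omega
        · exact h0 (hull a ha b hb hab (b - 1) (by omega) (by omega))
      have k1 := key j j' hj1.1 hj2.1 hj2.2 hjj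
      have k2 := key j' j hj2.1 hj1.1 hj1.2 hjj.symm
      omega
  simpa using this

/-- if in addition `J` contains no `k` consecutive integers then it has at most `R (k - 1)`
elements -/
theorem card_le_of_hull {J : Finset ℕ} {R k : ℕ} (hk : 1 ≤ k) (g : ℕ → ℕ)
    (hg : ∀ j ∈ J, g j < R)
    (hull : ∀ j ∈ J, ∀ j' ∈ J, g j = g j' → ∀ i, j ≤ i → i ≤ j' → i ∈ J)
    (hJ : ∀ a, ¬ ∀ j < k, a + j ∈ J) : J.card ≤ R * (k - 1) := by
  classical
  have h1 : ∀ c ∈ range R, (J.filter fun j => g j = c).card ≤ k - 1 := by
    intro c _
    by_contra hcon
    push Not at hcon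
    have hne : (J.filter fun j => g j = c).Nonempty := by
      rw [← card_pos]
      omega
    set P := J.filter fun j => g j = c with hP
    set a := P.min' hne with ha
    set b := P.max' hne with hb
    have haP : a ∈ P := P.min'_mem hne
    have hbP : b ∈ P := P.max'_mem hne
    have hsub : P ⊆ Icc a b := by
      intro j hj
      rw [mem_Icc]
      exact ⟨P.min'_le j hj, P.le_max' j hj⟩
    have hc := card_le_card hsub
    rw [Nat.card_Icc] at hc
    have haP' := haP
    have hbP' := hbP
    rw [hP, mem_filter] at haP' hbP'
    refine hJ a fun j hj => ?_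
    exact hull a haP'.1 b hbP'.1 (haP'.2.trans hbP'.2.symm) (a + j) (by omega) (by omega)
  have h2 : J.card = ∑ c ∈ range R, (J.filter fun j => g j = c).card :=
    card_eq_sum_card_fiberwise fun j hj => by simpa using hg j hj
  rw [h2]
  calc _ ≤ ∑ _c ∈ range R, (k - 1) := sum_le_sum h1
    _ = R * (k - 1) := by simp

end Pool.Agent.W5h75.FewFreq
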