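import Mathlib

set_option autoImplicit false

open Finset

namespace Pool.Agent.W5h75.FewFreq

/-- `A` contains no `k`-term arithmetic progression `a, a + d, …, a + (k - 1) d` with `d ≥ 1`. -/
def APFree (k : ℕ) (A : Finset ℕ) : Prop :=
  ∀ a d : ℕ, 0 < d → ¬ ∀ j < k, a + j * d ∈ A

open Classical in
/-- `r k N`: the largest number of elements of a subset of `{1, …, N}` without `k`-term arithmetic
progressions. -/
noncomputable def r (k N : ℕ) : ℕ := ((Icc 1 N).powerset.filter (APFree k)).sup card

/-- The point `(n, {α₁ n + β₁}, …, {α_m n + β_m})` of `ℝ^(m+1)`. -/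
noncomputable def pt {m : ℕ} (α β : Fin m → ℝ) (n : ℕ) : Fin (m + 1) → ℝ :=
  Fin.cons (n : ℝ) fun i => Int.fract (α i * n + β i)

open Classical in
/-- The set of all `n ∈ {1, …, N}` for which `(n, {α₁ n + β₁}, …, {α_m n + β_m})` lies in `S`. -/
noncomputable def cut {m : ℕ} (α β : Fin m → ℝ) (S : Set (Fin (m + 1) → ℝ)) (N : ℕ) : Finset ℕ :=
  (Icc 1 N).filter fun n => pt α β n ∈ S

/-- Every line meets `S` in a union of at most `K` intervals (convex sets, possibly empty or
consisting of one point, bounded or not, with or without end points). -/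
def LineComplexity {m : ℕ} (S : Set (Fin m → ℝ)) (K : ℕ) : Prop :=
  ∀ x v : Fin m → ℝ, ∃ I : Fin K → Set ℝ, (∀ c, Convex ℝ (I c)) ∧
    ∀ t : ℝ, x + t • v ∈ S ↔ ∃ c, t ∈ I c

theorem APFree.mono {k : ℕ} {A B : Finset ℕ} (hB : APFree k B) (h : A ⊆ B) : APFree k A :=
  fun a d hd hA => hB a d hd fun j hj => h (hA j hj)

theorem card_le_r {k N : ℕ} {A : Finset ℕ} (hA : APFree k A) (hN : A ⊆ Icc 1 N) :
    A.card ≤ r k N := by
  classical
  unfold r
  exact le_sup (f := card) (by simp [hN, hA])

theorem exists_r (k N : ℕ) (hk : 1 ≤ k) : ∃ A ⊆ Icc 1 N, APFree k A ∧ A.card = r k N := by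
  classical
  unfold r
  have hne : ((Icc 1 N).powerset.filter (APFree k)).Nonempty := by
    refine ⟨∅, ?_⟩
    simp only [mem_filter, mem_powerset, empty_subset, true_and]
    intro a d hd h
    simpa using h 0 (by omega)
  obtain ⟨A, hA, h⟩ := exists_mem_eq_sup _ hne card
  simp only [mem_filter, mem_powerset] at hA
  exact ⟨A, hA.1, hA.2, h.symm⟩

/-- in a progression of `L` terms a set without `k`-term progressions has at most `r k L`
elements -/
theorem card_prog_le {k : ℕ} {A : Finset ℕ} (hA : APFree k A) (a d L : ℕ) (hd : 0 < d) :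
    ((range L).filter fun j => a + j * d ∈ A).card ≤ r k L := by
  classical
  have hinj : Function.Injective (fun j : ℕ => j + 1) := fun x y h => by simpa using h
  rw [← card_image_of_injective _ hinj]
  refine card_le_r ?_ ?_
  · intro b e he h
    refine hA (a + (b - 1) * d) (e * d) (Nat.mul_pos he hd) fun j hj => ?_
    have hb : b + j * e ∈ ((range L).filter fun j => a + j * d ∈ A).image (fun j => j + 1) :=
      h j hj
    have hb0 : b ∈ ((range L).filter fun j => a + j * d ∈ A).image (fun j => j + 1) := by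
      simpa using h 0 (by omega)
    simp only [mem_image, mem_filter, mem_range] at hb hb0
    obtain ⟨i, ⟨hi, hi'⟩, hij⟩ := hb
    obtain ⟨i0, -, hi0⟩ := hb0
    have : a + (b - 1) * d + j * (e * d) = a + i * d := by
      have e1 : i = (b - 1) + j * e := by omega
      rw [e1]
      ring
    rw [this]
    exact hi'
  · intro x hx
    simp only [mem_image, mem_filter, mem_range, mem_Icc] at hx ⊢
    obtain ⟨i, ⟨hi, -⟩, rfl⟩ := hx
    omega

end Pool.Agent.W5h75.FewFreq
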