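import Pool.Agent.W5h75.FewFreq.ConvexCase

set_option autoImplicit false

open Finset

namespace Pool.Agent.W5h75.FewFreq

/-- the integers in `[0, g ^ m)` all of whose digits in base `g` are less than `b` -/
def dig (g b m : ℕ) : Finset ℕ := (range (g ^ m)).filter fun n => ∀ i < m, n % g ^ (i + 1) < b * g ^ i

theorem mem_dig {g b m n : ℕ} :
    n ∈ dig g b m ↔ n < g ^ m ∧ ∀ i < m, n % g ^ (i + 1) < b * g ^ i := by
  simp [dig]

theorem card_dig (g b m : ℕ) (hg : 0 < g) (hb : b ≤ g) : (dig g b m).card = b ^ m := by
  induction m with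
  | zero =>
    have : dig g b 0 = {0} := by
      ext n
      simp [mem_dig]
    simp [this]
  | succ m ih =>
    have hgm : 0 < g ^ m := Nat.pow_pos hg
    have hcard : (dig g b (m + 1)).card = (range b ×ˢ dig g b m).card := by
      refine card_nbij' (i := fun n => (n / g ^ m, n % g ^ m)) (j := fun p => p.1 * g ^ m + p.2)
        ?_ ?_ ?_ ?_
      · intro n hn
        rw [mem_coe, mem_dig] at hn
        rw [mem_coe, mem_product, mem_range, mem_dig]
        refine ⟨?_, Nat.mod_lt _ hgm, fun i hi => ?_⟩
        · have h1 := hn.2 m (by omega)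
          rw [Nat.mod_eq_of_lt hn.1] at h1
          rw [Nat.div_lt_iff_lt_mul hgm]
          exact h1
        · rw [Nat.mod_mod_of_dvd _ (pow_dvd_pow g (by omega))]
          exact hn.2 i (by omega)
      · intro p hp
        rw [mem_coe, mem_product, mem_range, mem_dig] at hp
        rw [mem_coe, mem_dig]
        obtain ⟨hp1, hp2, hp3⟩ := hp
        have hlt : p.1 * g ^ m + p.2 < b * g ^ m := by
          calc p.1 * g ^ m + p.2 < p.1 * g ^ m + g ^ m := by omega
            _ = (p.1 + 1) * g ^ m := by ring
            _ ≤ b * g ^ m := Nat.mul_le_mul_right _ hp1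
        refine ⟨hlt.trans_le ?_, fun i hi => ?_⟩
        · rw [pow_succ, mul_comm (g ^ m)]
          exact Nat.mul_le_mul_right _ hb
        · rcases Nat.lt_succ_iff_lt_or_eq.1 hi with h | rfl
          · obtain ⟨c, hc⟩ := pow_dvd_pow g (show i + 1 ≤ m by omega)
            have : p.1 * g ^ m + p.2 = p.2 + g ^ (i + 1) * (c * p.1) := by
              rw [hc]
              ring
            show (p.1 * g ^ m + p.2) % g ^ (i + 1) < b * g ^ i
            rw [this, Nat.add_mul_mod_self_left]
            exact hp3 i h
          · exact (Nat.mod_le _ _).trans_lt hlt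
      · intro n hn
        simp only []
        rw [mul_comm]
        exact Nat.div_add_mod n (g ^ m)
      · intro p hp
        rw [mem_coe, mem_product, mem_range, mem_dig] at hp
        have h1 : (p.1 * g ^ m + p.2) / g ^ m = p.1 := by
          rw [mul_comm, Nat.mul_add_div hgm, Nat.div_eq_of_lt hp.2.1, add_zero]
        have h2 : (p.1 * g ^ m + p.2) % g ^ m = p.2 := by
          rw [mul_comm, Nat.mul_add_mod, Nat.mod_eq_of_lt hp.2.1]
        exact Prod.ext h1 h2
    rw [hcard, card_product, card_range, ih]
    ring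

/-- for a prime base `p ≥ k` the numbers with digits less than `k - 1` contain no `k`-term
progression -/
theorem dig_apfree {p k m : ℕ} (hp : p.Prime) (hk : 2 ≤ k) (hkp : k ≤ p) :
    APFree k (dig p (k - 1) m) := by
  classical
  intro a d hd h
  have hp1 : 1 < p := hp.one_lt
  have hdm : d < p ^ m := by
    have h1 := (mem_dig.1 (h 1 (by omega))).1
    omega
  obtain ⟨i, e, he, hde⟩ := Nat.exists_eq_pow_mul_and_not_dvd hd.ne' p hp.ne_one
  have him : i < m := by
    by_contra hc
    push Not at hc
    have h1 : p ^ m ∣ d := (pow_dvd_pow p hc).trans ⟨e, hde⟩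
    have := Nat.le_of_dvd hd h1
    omega
  have hpi : 0 < p ^ i := Nat.pow_pos hp.pos
  -- the digits at position `i`
  let f : ℕ → ℕ := fun j => ((a + j * d) / p ^ i) % p
  have hf1 : ∀ j < k, f j < k - 1 := by
    intro j hj
    have h1 := (mem_dig.1 (h j hj)).2 i him
    have h2 : f j = ((a + j * d) % p ^ (i + 1)) / p ^ i := by
      simp only [f]
      rw [pow_succ, Nat.mod_mul_right_div_self]
    rw [h2, Nat.div_lt_iff_lt_mul hpi]
    exact h1
  have hf2 : ∀ j, f j = (a / p ^ i + j * e) % p := by
    intro j
    simp only [f]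
    congr 1
    rw [hde]
    have : a + j * (p ^ i * e) = a + p ^ i * (j * e) := by ring
    rw [this, Nat.add_mul_div_left _ _ hpi]
  have hinj : Set.InjOn f (range k) := by
    intro j hj j' hj' hjj
    rw [hf2, hf2] at hjj
    simp only [coe_range, Set.mem_Iio] at hj hj'
    have h1 : j * e ≡ j' * e [MOD p] := Nat.ModEq.add_left_cancel' _ hjj
    have h2 : j ≡ j' [MOD p] := by
      refine Nat.ModEq.cancel_right_of_coprime ?_ h1
      exact (Nat.Prime.coprime_iff_not_dvd hp).2 he
    have h3 : j % p = j' % p := h2
    rw [Nat.mod_eq_of_lt (by omega), Nat.mod_eq_of_lt (by omega)] at h3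
    exact h3
  have hmaps : Set.MapsTo f (range k) (range (k - 1)) := by
    intro j hj
    simp only [coe_range, Set.mem_Iio] at hj ⊢
    exact hf1 j hj
  have := card_le_card_of_injOn f hmaps hinj
  rw [card_range, card_range] at this
  omega

end Pool.Agent.W5h75.FewFreq
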