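import Pool.Agent.W5h75.FewFreq.NormSharp

set_option autoImplicit false

open Finset

namespace Pool.Agent.W5h75.FewFreq

theorem rpow_eq {N m : ℕ} (hN : 1 ≤ N) :
    (N : ℝ) ^ (1 - 1 / ((m : ℝ) + 1)) = N * Real.exp (-(Real.log N / (m + 1))) := by
  have hN0 : (0 : ℝ) < N := by exact_mod_cast hN
  rw [sub_eq_add_neg, Real.rpow_add hN0, Real.rpow_one, Real.rpow_def_of_pos hN0]
  congr 2
  ring

theorem threshold {N m : ℕ} {X c0 κ C s : ℝ} (hN : 1 ≤ N) (hs : s = √(Real.log N)) (hC : 0 ≤ C)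
    (hc0 : 0 ≤ c0) (hs0 : 0 < s) (hsc : 2 * c0 ≤ s) (hκ : κ ≤ Real.exp (C * s))
    (hX : X ≤ c0 * κ * (m + 1) * (N : ℝ) ^ (1 - 1 / ((m : ℝ) + 1)))
    (hX' : N * Real.exp (-(C * s)) ≤ X) : s ≤ (2 * C + 1) * (m + 1) := by
  have hN0 : (0 : ℝ) < N := by exact_mod_cast hN
  have hN1 : (1 : ℝ) ≤ N := by exact_mod_cast hN
  have hm0 : (0 : ℝ) < (m : ℝ) + 1 := by positivity
  by_contra hcon
  push Not at hcon
  have hms : (m : ℝ) + 1 ≤ s := by nlinarith
  have hlog : s * s = Real.log N := by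
    rw [hs]
    exact Real.mul_self_sqrt (Real.log_nonneg hN1)
  rw [rpow_eq hN, ← hlog] at hX
  have h1 : Real.exp (-(s * s / (m + 1))) ≤ Real.exp (-((2 * C + 1) * s)) := by
    apply Real.exp_le_exp.2
    rw [neg_le_neg_iff, le_div_iff₀ hm0]
    nlinarith
  have h2 : c0 * κ * (m + 1) * (N * Real.exp (-(s * s / (m + 1)))) ≤
      c0 * Real.exp (C * s) * s * (N * Real.exp (-((2 * C + 1) * s))) := by
    have e0 := Real.exp_pos (C * s)
    apply mul_le_mul
    · apply mul_le_mul _ hms hm0.le (by positivity)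
      exact mul_le_mul_of_nonneg_left hκ hc0
    · exact mul_le_mul_of_nonneg_left h1 hN0.le
    · positivity
    · positivity
  have h3 : c0 * Real.exp (C * s) * s * (N * Real.exp (-((2 * C + 1) * s))) =
      (c0 * s * Real.exp (-s)) * (N * Real.exp (-(C * s))) := by
    have : -((2 * C + 1) * s) = -(C * s) + -(C * s) + -s := by ring
    rw [this, Real.exp_add, Real.exp_add]
    have h4 : Real.exp (C * s) * Real.exp (-(C * s)) = 1 := by
      rw [← Real.exp_add]
      simp
    calc _ = (Real.exp (C * s) * Real.exp (-(C * s))) * (c0 * s * Real.exp (-s)) *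
          (N * Real.exp (-(C * s))) := by ring
      _ = _ := by rw [h4, one_mul]
  have h5 : c0 * s * Real.exp (-s) < 1 := by
    have h6 := Real.quadratic_le_exp_of_nonneg hs0.le
    have h7 : c0 * s < Real.exp s := by nlinarith
    calc c0 * s * Real.exp (-s) < Real.exp s * Real.exp (-s) :=
          mul_lt_mul_of_pos_right h7 (Real.exp_pos _)
      _ = 1 := by rw [← Real.exp_add]; simp
  have h6 : 0 < N * Real.exp (-(C * s)) := by positivity
  have h7 := mul_lt_mul_of_pos_right h5 h6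
  linarith

theorem threshold' {N m : ℕ} {X c0 κ M s : ℝ} (hN : 1 ≤ N) (hs : s = √(Real.log N)) (hM : 1 ≤ M)
    (hc0 : 0 ≤ c0) (hs0 : 0 < s) (hsc : 32 * M ^ 3 * c0 ≤ s)
    (hκ : κ ≤ Real.exp (s / (4 * M))) (hm : (m : ℝ) + 1 ≤ M * s)
    (hX : X ≤ c0 * κ * (m + 1) * (N : ℝ) ^ (1 - 1 / ((m : ℝ) + 1))) :
    X ≤ N * Real.exp (-(s / (2 * M))) := by
  have hN0 : (0 : ℝ) < N := by exact_mod_cast hN
  have hN1 : (1 : ℝ) ≤ N := by exact_mod_cast hN
  have hm0 : (0 : ℝ) < (m : ℝ) + 1 := by positivity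
  have hM0 : 0 < M := by linarith
  have hlog : s * s = Real.log N := by
    rw [hs]
    exact Real.mul_self_sqrt (Real.log_nonneg hN1)
  rw [rpow_eq hN, ← hlog] at hX
  have h1 : Real.exp (-(s * s / (m + 1))) ≤ Real.exp (-(s / M)) := by
    apply Real.exp_le_exp.2
    rw [neg_le_neg_iff, le_div_iff₀ hm0, div_mul_eq_mul_div, div_le_iff₀ hM0]
    nlinarith
  have h2 : c0 * κ * (m + 1) * (N * Real.exp (-(s * s / (m + 1)))) ≤
      c0 * Real.exp (s / (4 * M)) * (M * s) * (N * Real.exp (-(s / M))) := by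
    have e0 := Real.exp_pos (s / (4 * M))
    apply mul_le_mul
    · apply mul_le_mul _ hm hm0.le (by positivity)
      exact mul_le_mul_of_nonneg_left hκ hc0
    · exact mul_le_mul_of_nonneg_left h1 hN0.le
    · positivity
    · positivity
  have h3 : c0 * Real.exp (s / (4 * M)) * (M * s) * (N * Real.exp (-(s / M))) =
      (c0 * (M * s) * Real.exp (-(s / (4 * M)))) * (N * Real.exp (-(s / (2 * M)))) := by
    have : -(s / M) = -(s / (4 * M)) + -(s / (4 * M)) + -(s / (2 * M)) := by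
      field_simp
      ring
    rw [this, Real.exp_add, Real.exp_add]
    have h4 : Real.exp (s / (4 * M)) * Real.exp (-(s / (4 * M))) = 1 := by
      rw [← Real.exp_add]
      simp
    calc _ = (Real.exp (s / (4 * M)) * Real.exp (-(s / (4 * M)))) *
          (c0 * (M * s) * Real.exp (-(s / (4 * M)))) * (N * Real.exp (-(s / (2 * M)))) := by ring
      _ = _ := by rw [h4, one_mul]
  have h5 : c0 * (M * s) * Real.exp (-(s / (4 * M))) ≤ 1 := by
    have h6 := Real.quadratic_le_exp_of_nonneg (x := s / (4 * M)) (by positivity)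
    have h7 : c0 * (M * s) ≤ Real.exp (s / (4 * M)) := by
      refine le_trans ?_ h6
      have h8 : (s / (4 * M)) ^ 2 / 2 = s * s / (32 * M ^ 2) := by
        field_simp
        ring
      have h9 : c0 * (M * s) ≤ s * s / (32 * M ^ 2) := by
        rw [le_div_iff₀ (by positivity)]
        calc c0 * (M * s) * (32 * M ^ 2) = (32 * M ^ 3 * c0) * s := by ring
          _ ≤ s * s := mul_le_mul_of_nonneg_right hsc hs0.le
      have h10 : 0 ≤ s / (4 * M) := by positivity
      linarith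
    calc c0 * (M * s) * Real.exp (-(s / (4 * M))) ≤
          Real.exp (s / (4 * M)) * Real.exp (-(s / (4 * M))) :=
          mul_le_mul_of_nonneg_right h7 (Real.exp_pos _).le
      _ = 1 := by rw [← Real.exp_add]; simp
  have h6 : 0 ≤ N * Real.exp (-(s / (2 * M))) := by positivity
  have h7 := mul_le_mul_of_nonneg_right h5 h6
  linarith

/-- Roth's theorem -/
theorem exists_L (η : ℝ) (hη : 0 < η) : ∃ L : ℕ, 1 ≤ L ∧ (r 3 L : ℝ) ≤ η * L := by
  have h := rothNumberNat_isLittleO_id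
  rw [Asymptotics.isLittleO_iff] at h
  obtain ⟨n, hn⟩ := Filter.eventually_atTop.1 (h hη)
  have h1 := hn (n + 1) (by omega)
  simp only [RCLike.norm_natCast] at h1
  refine ⟨n + 1, by omega, le_trans ?_ h1⟩
  obtain ⟨A, hA, hA', hc⟩ := exists_r 3 (n + 1) (by norm_num)
  rw [← hc]
  have hinj : Set.InjOn (fun x : ℕ => x - 1) A := by
    intro a ha b hb h
    have h1 := hA ha
    have h2 := hA hb
    rw [mem_Icc] at h1 h2
    have h3 : a - 1 = b - 1 := h
    omega
  have := ThreeAPFree.le_rothNumberNat (n := n + 1) (k := A.card) (A.image fun x => x - 1) ?_ ?_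
    (card_image_of_injOn hinj)
  · exact_mod_cast this
  · intro a ha b hb c hc habc
    simp only [coe_image, Set.mem_image, mem_coe] at ha hb hc
    obtain ⟨a, ha, rfl⟩ := ha
    obtain ⟨b, hb, rfl⟩ := hb
    obtain ⟨c, hc, rfl⟩ := hc
    have h1 := hA ha
    have h2 := hA hb
    have h3 := hA hc
    rw [mem_Icc] at h1 h2 h3
    by_contra hne
    have key : ∀ x y z : ℕ, x ∈ A → y ∈ A → z ∈ A → x < y → x + z = 2 * y → False := by
      intro x y z hx hy hz hxy hxz
      refine hA' x (y - x) (by omega) fun j hj => ?_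
      interval_cases j
      · simpa using hx
      · have : x + 1 * (y - x) = y := by omega
        rw [this]
        exact hy
      · have : x + 2 * (y - x) = z := by omega
        rw [this]
        exact hz
    rcases lt_or_gt_of_ne hne with h | h
    · exact key a b c ha hb hc (by omega) (by omega)
    · exact key c b a hc hb ha (by omega) (by omega)
  · intro x hx
    simp only [mem_image] at hx
    obtain ⟨y, hy, rfl⟩ := hx
    have h1 := hA hy
    rw [mem_Icc] at h1
    omega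

/-- **Few frequencies are not enough.** -/
theorem few_frequencies {k T m K N : ℕ} (hk : 1 ≤ k) (hN : 1 ≤ N) {C : ℝ} (hC : 0 ≤ C)
    (hs : 6 * (k : ℝ) ≤ √(Real.log N)) (α β : Fin T → Fin m → ℝ)
    (S : Fin T → Set (Fin (m + 1) → ℝ)) (hS : ∀ i, LineComplexity (S i) K)
    (hT : (T : ℝ) * K ≤ Real.exp (C * √(Real.log N)))
    (hA : APFree k (univ.biUnion fun i => cut (α i) (β i) (S i) N))
    (hlarge : N * Real.exp (-(C * √(Real.log N))) ≤
      (univ.biUnion fun i => cut (α i) (β i) (S i) N).card) :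
    √(Real.log N) ≤ (2 * C + 1) * (m + 1) := by
  have hk1 : (1 : ℝ) ≤ k := by exact_mod_cast hk
  have hle : ((univ.biUnion fun i => cut (α i) (β i) (S i) N).card : ℝ) ≤
      (3 * ((k : ℝ) - 1)) * (T * K) * (m + 1) * (N : ℝ) ^ (1 - 1 / ((m : ℝ) + 1)) := by
    calc ((univ.biUnion fun i => cut (α i) (β i) (S i) N).card : ℝ)
        ≤ ∑ i : Fin T, ((cut (α i) (β i) (S i) N).card : ℝ) := by
          exact_mod_cast card_biUnion_le
      _ ≤ ∑ _i : Fin T, 3 * K * (m + 1) * ((k : ℝ) - 1) * (N : ℝ) ^ (1 - 1 / ((m : ℝ) + 1)) := by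
          refine sum_le_sum fun i _ => absolute hk (α i) (β i) (S i) (hS i) ?_
          exact hA.mono (subset_biUnion_of_mem (fun i => cut (α i) (β i) (S i) N) (mem_univ i))
      _ = _ := by
          rw [sum_const, card_univ, Fintype.card_fin, nsmul_eq_mul]
          ring
  refine threshold hN rfl hC (c0 := 3 * ((k : ℝ) - 1)) (κ := T * K) ?_ ?_ ?_ hT hle hlarge
  · linarith
  · linarith
  · linarith

/-- the union bound -/
theorem union_bound {k T m K N : ℕ} (hk : 1 ≤ k) (α β : Fin T → Fin m → ℝ)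
    (S : Fin T → Set (Fin (m + 1) → ℝ)) (hS : ∀ i, LineComplexity (S i) K)
    (hA : APFree k (univ.biUnion fun i => cut (α i) (β i) (S i) N)) :
    ((univ.biUnion fun i => cut (α i) (β i) (S i) N).card : ℝ) ≤
      3 * T * K * (m + 1) * ((k : ℝ) - 1) * (N : ℝ) ^ (1 - 1 / ((m : ℝ) + 1)) := by
  calc ((univ.biUnion fun i => cut (α i) (β i) (S i) N).card : ℝ)
        ≤ ∑ i : Fin T, ((cut (α i) (β i) (S i) N).card : ℝ) := by
          exact_mod_cast card_biUnion_le
    _ ≤ ∑ _i : Fin T, 3 * K * (m + 1) * ((k : ℝ) - 1) * (N : ℝ) ^ (1 - 1 / ((m : ℝ) + 1)) := by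
          refine sum_le_sum fun i _ => absolute hk (α i) (β i) (S i) (hS i) ?_
          exact hA.mono (subset_biUnion_of_mem (fun i => cut (α i) (β i) (S i) N) (mem_univ i))
    _ = _ := by
          rw [sum_const, card_univ, Fintype.card_fin, nsmul_eq_mul]
          ring

/-- **The order of magnitude in the restricted model.** -/
theorem many_frequencies {k T m K N : ℕ} (hk : 1 ≤ k) (hN : 1 ≤ N) {M : ℝ} (hM : 1 ≤ M)
    (hs : 96 * M ^ 3 * k ≤ √(Real.log N)) (α β : Fin T → Fin m → ℝ)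
    (S : Fin T → Set (Fin (m + 1) → ℝ)) (hS : ∀ i, LineComplexity (S i) K)
    (hT : (T : ℝ) * K ≤ Real.exp (√(Real.log N) / (4 * M)))
    (hm : (m : ℝ) + 1 ≤ M * √(Real.log N))
    (hA : APFree k (univ.biUnion fun i => cut (α i) (β i) (S i) N)) :
    ((univ.biUnion fun i => cut (α i) (β i) (S i) N).card : ℝ) ≤
      N * Real.exp (-(√(Real.log N) / (2 * M))) := by
  have hk1 : (1 : ℝ) ≤ k := by exact_mod_cast hk
  have hM3 : (1 : ℝ) ≤ M ^ 3 := one_le_pow₀ hM
  refine threshold' hN rfl hM (c0 := 3 * ((k : ℝ) - 1)) (κ := T * K) ?_ ?_ ?_ hT hm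
    ((union_bound hk α β S hS hA).trans (le_of_eq (by ring)))
  · linarith
  · have : (0 : ℝ) < 96 * M ^ 3 * k := by positivity
    linarith
  · have : 32 * M ^ 3 * (3 * ((k : ℝ) - 1)) ≤ 96 * M ^ 3 * k := by nlinarith
    linarith

/-- **Sets with few frequencies do not correlate with large progression-free sets.** -/
theorem correlation (η : ℝ) (hη : 0 < η) : ∃ s₀ : ℝ, ∀ (C : ℝ) (N m K : ℕ), 0 ≤ C → 1 ≤ N →
    s₀ ≤ √(Real.log N) → ∀ (α β : Fin m → ℝ) (S : Set (Fin (m + 1) → ℝ)) (A : Finset ℕ),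
    LineComplexity S K → (K : ℝ) ≤ Real.exp (C * √(Real.log N)) → APFree 3 A →
    N * Real.exp (-(C * √(Real.log N))) ≤ A.card →
    η * A.card ≤ (A ∩ cut α β S N).card → η * (cut α β S N).card ≤ (A ∩ cut α β S N).card →
    √(Real.log N) ≤ (2 * C + 1) * (m + 1) := by
  obtain ⟨L, hL, hrL⟩ := exists_L (η / 2) (by linarith)
  have hL0 : (0 : ℝ) < L := by exact_mod_cast hL
  refine ⟨max 1 (12 * L / η ^ 2), ?_⟩
  intro C N m K hC hN hs α β S A hS hK hA hAl h1 h2
  have hs1 : 1 ≤ √(Real.log N) := (le_max_left _ _).trans hs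
  have hs2 : 12 * L / η ^ 2 ≤ √(Real.log N) := (le_max_right _ _).trans hs
  have hrel := relative (N := N) hL α β S hS A hA
  have h3 : (r 3 L : ℝ) / L ≤ η / 2 := by
    rw [div_le_iff₀ hL0]
    exact hrL
  have hr : (r 3 L : ℝ) ≤ L := by
    obtain ⟨A', hA', -, hc⟩ := exists_r 3 L (by norm_num)
    rw [← hc]
    have := card_le_card hA'
    rw [Nat.card_Icc] at this
    exact_mod_cast (by omega : A'.card ≤ L)
  set Y : ℝ := (N : ℝ) ^ (1 - 1 / ((m : ℝ) + 1)) with hY
  have hY0 : 0 ≤ Y := by positivity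
  have h4 : η / 2 * (cut α β S N).card ≤ 3 * K * (m + 1) * L * Y := by
    have h5 : (r 3 L : ℝ) / L * (cut α β S N).card ≤ η / 2 * (cut α β S N).card :=
      mul_le_mul_of_nonneg_right h3 (Nat.cast_nonneg _)
    have h6 : 3 * (K : ℝ) * (m + 1) * r 3 L * Y ≤ 3 * K * (m + 1) * L * Y := by
      apply mul_le_mul_of_nonneg_right _ hY0
      exact mul_le_mul_of_nonneg_left hr (by positivity)
    linarith
  have hsub : ((A ∩ cut α β S N).card : ℝ) ≤ (cut α β S N).card := by
    exact_mod_cast card_le_card inter_subset_right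
  have h5 : (A.card : ℝ) ≤ (6 * L / η ^ 2) * K * (m + 1) * Y := by
    have h6 : η * A.card ≤ (cut α β S N).card := h1.trans hsub
    have h7 : η ^ 2 * A.card ≤ 6 * K * (m + 1) * L * Y := by
      have := mul_le_mul_of_nonneg_left h6 hη.le
      nlinarith
    have h8 : (6 * L / η ^ 2) * K * (m + 1) * Y = (6 * K * (m + 1) * L * Y) / η ^ 2 := by ring
    rw [h8, le_div_iff₀ (by positivity)]
    linarith
  refine threshold hN rfl hC (c0 := 6 * L / η ^ 2) (κ := K) (by positivity) (by linarith) ?_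
    hK h5 hAl
  calc 2 * (6 * L / η ^ 2) = 12 * L / η ^ 2 := by ring
    _ ≤ _ := hs2

/-- **Behrend's sets.** -/
theorem behrend_shell (N : ℕ) (hN : 1 ≤ N) : ∃ (m : ℕ) (α : Fin m → ℝ)
    (C D : Set (Fin (m + 1) → ℝ)), (m : ℝ) ^ 2 * Real.log 2 ≤ Real.log N ∧ Convex ℝ C ∧
      Convex ℝ D ∧ APFree 3 (cut α 0 (C \ D) N) ∧
      N * Real.exp (-(5 * √(Real.log N))) ≤ (cut α 0 (C \ D) N).card := by
  have hN1 : (1 : ℝ) ≤ N := by exact_mod_cast hN
  have hN0 : (0 : ℝ) < N := by linarith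
  have hex : ∃ m', N < 2 ^ (m' * (m' + 1)) := by
    refine ⟨N, ?_⟩
    calc N < 2 ^ N := Nat.lt_two_pow_self
      _ ≤ 2 ^ (N * (N + 1)) := Nat.pow_le_pow_right (by norm_num) (Nat.le_mul_of_pos_right _ (by omega))
  obtain ⟨m, hm1, hm2⟩ : ∃ m, 2 ^ (m * (m + 1)) ≤ N ∧ N < 2 ^ ((m + 1) * (m + 2)) := by
    classical
    have h1 := Nat.find_spec hex
    have h0 : Nat.find hex ≠ 0 := by
      intro h0
      rw [h0] at h1
      simp at h1
      omega
    obtain ⟨m, hm⟩ := Nat.exists_eq_succ_of_ne_zero h0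
    refine ⟨m, ?_, ?_⟩
    · have := Nat.find_min hex (m := m) (by omega)
      omega
    · rw [hm] at h1
      exact h1
  have hb : 1 ≤ 2 ^ m := Nat.one_le_two_pow
  have hle : (2 * 2 ^ m) ^ m ≤ N := by
    refine le_trans (le_of_eq ?_) hm1
    rw [← pow_succ', ← pow_mul]
    congr 1
    ring
  obtain ⟨ρ, hρ⟩ := shell_large m (2 ^ m) N hb hle
  have hfree := shell_free m (2 ^ m) ρ N hb
  set X := (cut (fr (2 * 2 ^ m) m) 0 (bodyC m (2 ^ m) ρ \ bodyD m (2 ^ m) ρ) N).card with hX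
  have hcard : N ≤ 4 * 64 ^ m * X := by
    have h1 : m * (2 ^ m) ^ 2 + 1 ≤ 8 ^ m := by
      have h2 : m + 1 ≤ 2 ^ m := Nat.lt_two_pow_self
      have h3 : (2 ^ m) ^ 2 = 4 ^ m := by
        rw [← pow_mul, mul_comm, pow_mul]
        norm_num
      have h4 : (8 : ℕ) ^ m = 2 ^ m * 4 ^ m := by
        rw [← mul_pow]
        norm_num
      have h5 : 1 ≤ 4 ^ m := Nat.one_le_pow _ _ (by norm_num)
      rw [h3, h4]
      calc m * 4 ^ m + 1 ≤ m * 4 ^ m + 4 ^ m := by omega
        _ = (m + 1) * 4 ^ m := by ring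
        _ ≤ 2 ^ m * 4 ^ m := Nat.mul_le_mul_right _ h2
    have h2 : (2 ^ m) ^ m ≤ 8 ^ m * X := hρ.trans (Nat.mul_le_mul_right _ h1)
    have h3 : (2 : ℕ) ^ ((m + 1) * (m + 2)) = 4 * 8 ^ m * (2 ^ m) ^ m := by
      have h4 : (8 : ℕ) ^ m = 2 ^ (3 * m) := by rw [pow_mul]; norm_num
      have h5 : (4 : ℕ) = 2 ^ 2 := by norm_num
      rw [h4, h5, ← pow_mul, ← pow_add, ← pow_add]
      congr 1
      ring
    have h4 : (64 : ℕ) ^ m = 8 ^ m * 8 ^ m := by
      rw [← mul_pow]
      norm_num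
    calc N ≤ 4 * 8 ^ m * (2 ^ m) ^ m := by rw [← h3]; exact hm2.le
      _ ≤ 4 * 8 ^ m * (8 ^ m * X) := Nat.mul_le_mul_left _ h2
      _ = 4 * 64 ^ m * X := by rw [h4]; ring
  have hlogN : (m : ℝ) * (m + 1) * Real.log 2 ≤ Real.log N := by
    have h1 : ((2 : ℝ) ^ (m * (m + 1))) ≤ N := by exact_mod_cast hm1
    have h2 := Real.log_le_log (by positivity) h1
    rw [Real.log_pow] at h2
    push_cast at h2
    exact h2
  have hl2 : 0 < Real.log 2 := Real.log_pos (by norm_num)
  have hl2' : Real.log 2 < 0.6931471808 := Real.log_two_lt_d9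
  have hm0 : (0 : ℝ) ≤ m := Nat.cast_nonneg _
  refine ⟨m, fr (2 * 2 ^ m) m, bodyC m (2 ^ m) ρ, bodyD m (2 ^ m) ρ, ?_, convex_bodyC _ _ _,
    convex_bodyD _ _ _, hfree, ?_⟩
  · nlinarith
  · rw [← hX]
    have hcardR : (N : ℝ) ≤ 4 * 64 ^ m * X := by exact_mod_cast hcard
    rcases Nat.eq_zero_or_pos m with hm | hm
    · -- `N < 4`
      have hX1 : 1 ≤ X := by
        rw [hm] at hcard
        simp at hcard
        omega
      have hX1' : (1 : ℝ) ≤ X := by exact_mod_cast hX1
      have hN4 : (N : ℝ) ≤ 4 := by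
        have : N < 2 ^ ((0 + 1) * (0 + 2)) := by rw [hm] at hm2; exact hm2
        have h2 : N ≤ 4 := by omega
        exact_mod_cast h2
      have hlog4 : Real.log N ≤ 2 := by
        calc Real.log N ≤ Real.log 4 := Real.log_le_log hN0 hN4
          _ = 2 * Real.log 2 := by
            have : (4 : ℝ) = 2 ^ 2 := by norm_num
            rw [this, Real.log_pow]
            norm_num
          _ ≤ 2 := by linarith
      have hlog0 : 0 ≤ Real.log N := Real.log_nonneg hN1
      have hsq : √(Real.log N) * √(Real.log N) = Real.log N := Real.mul_self_sqrt hlog0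
      have hs0 := Real.sqrt_nonneg (Real.log N)
      have h1 : Real.log N ≤ 5 * √(Real.log N) := by
        have h2 : √(Real.log N) ≤ 5 := by
          rw [Real.sqrt_le_left (by norm_num)]
          linarith
        nlinarith
      refine le_trans ?_ hX1'
      calc (N : ℝ) * Real.exp (-(5 * √(Real.log N)))
          = Real.exp (Real.log N) * Real.exp (-(5 * √(Real.log N))) := by rw [Real.exp_log hN0]
        _ = Real.exp (Real.log N - 5 * √(Real.log N)) := by rw [← Real.exp_add]; ring_nf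
        _ ≤ 1 := by
          rw [Real.exp_le_one_iff]
          linarith
    · have hm1 : (1 : ℝ) ≤ m := by exact_mod_cast hm
      have h1 : (6 * (m : ℝ) + 2) * Real.log 2 ≤ 5 * √(Real.log N) := by
        have h2 : ((6 * (m : ℝ) + 2) * Real.log 2 / 5) ^ 2 ≤ Real.log N := by
          refine le_trans ?_ hlogN
          have h3 : (6 * (m : ℝ) + 2) ^ 2 * Real.log 2 ≤ 25 * (m * (m + 1)) := by
            have h4 : (6 * (m : ℝ) + 2) ^ 2 * Real.log 2 ≤ (6 * (m : ℝ) + 2) ^ 2 * 0.6931471808 :=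
              mul_le_mul_of_nonneg_left hl2'.le (by positivity)
            nlinarith
          have h5 := mul_le_mul_of_nonneg_right h3 hl2.le
          nlinarith
        have h3 := Real.le_sqrt_of_sq_le h2
        linarith
      have h2 : (4 : ℝ) * 64 ^ m ≤ Real.exp (5 * √(Real.log N)) := by
        have h3 : (4 : ℝ) * 64 ^ m = Real.exp ((6 * (m : ℝ) + 2) * Real.log 2) := by
          have h4 : (6 * (m : ℝ) + 2) * Real.log 2 = Real.log 2 * ((6 * m + 2 : ℕ) : ℝ) := by
            push_cast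
            ring
          rw [h4, Real.exp_mul, Real.exp_log (by norm_num), Real.rpow_natCast, pow_add, pow_mul]
          norm_num
          ring
        rw [h3]
        exact Real.exp_le_exp.2 h1
      rw [Real.exp_neg, ← div_eq_mul_inv, div_le_iff₀ (Real.exp_pos _)]
      calc (N : ℝ) ≤ 4 * 64 ^ m * X := hcardR
        _ ≤ Real.exp (5 * √(Real.log N)) * X := mul_le_mul_of_nonneg_right h2 (Nat.cast_nonneg _)
        _ = _ := by ring

end Pool.Agent.W5h75.FewFreq
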