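import Pool.Agent.W5h75.FewFreq.Block

set_option autoImplicit false

open Finset

namespace Pool.Agent.W5h75.FewFreq

theorem card_eq_blocks (B : Finset ℕ) (N d Q : ℕ) (hd : 0 < d) (hQ : 0 < Q) (hB : B ⊆ Icc 1 N) :
    B.card = ∑ p ∈ range (N / (d * Q) + 1) ×ˢ range d,
      ((range Q).filter fun j => p.1 * (d * Q) + p.2 + j * d ∈ B).card := by
  classical
  have hdQ : 0 < d * Q := Nat.mul_pos hd hQ
  rw [card_eq_sum_card_fiberwise (f := fun n => (n / (d * Q), n % d))
    (t := range (N / (d * Q) + 1) ×ˢ range d)]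
  · refine sum_congr rfl fun p hp => ?_
    simp only [mem_product, mem_range] at hp
    refine (card_nbij' (i := fun j => p.1 * (d * Q) + p.2 + j * d)
      (j := fun n => (n % (d * Q)) / d) ?_ ?_ ?_ ?_).symm
    · intro j hj
      simp only [coe_filter, mem_range, Set.mem_ofPred_eq] at hj ⊢
      refine ⟨hj.2, ?_⟩
      have h1 : p.2 + j * d < d * Q := by
        calc p.2 + j * d < d + j * d := by omega
          _ = d * (j + 1) := by ring
          _ ≤ d * Q := Nat.mul_le_mul_left _ hj.1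
      have h2 : (p.1 * (d * Q) + p.2 + j * d) / (d * Q) = p.1 := by
        rw [add_assoc, mul_comm p.1, Nat.mul_add_div hdQ, Nat.div_eq_of_lt h1, add_zero]
      have h3 : (p.1 * (d * Q) + p.2 + j * d) % d = p.2 := by
        have : p.1 * (d * Q) + p.2 + j * d = p.2 + d * (p.1 * Q + j) := by ring
        rw [this, Nat.add_mul_mod_self_left, Nat.mod_eq_of_lt hp.2]
      exact Prod.ext h2 h3
    · intro n hn
      simp only [coe_filter, mem_range, Set.mem_ofPred_eq] at hn ⊢
      obtain ⟨hn1, hn2⟩ := hn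
      have e1 : n / (d * Q) = p.1 := congrArg Prod.fst hn2
      have e2 : n % d = p.2 := congrArg Prod.snd hn2
      have h1 : (n % (d * Q)) / d < Q := by
        rw [Nat.div_lt_iff_lt_mul hd, mul_comm Q]
        exact Nat.mod_lt _ hdQ
      have h2 : p.1 * (d * Q) + p.2 + (n % (d * Q)) / d * d = n := by
        have h3 := Nat.div_add_mod n (d * Q)
        have h4 := Nat.div_add_mod (n % (d * Q)) d
        rw [Nat.mod_mul_right_mod, e2] at h4
        rw [e1] at h3
        rw [mul_comm d (n % (d * Q) / d)] at h4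
        rw [mul_comm p.1]
        omega
      rw [h2]
      exact ⟨h1, hn1⟩
    · intro j hj
      simp only [coe_filter, mem_range, Set.mem_ofPred_eq] at hj
      have h1 : p.2 + j * d < d * Q := by
        calc p.2 + j * d < d + j * d := by omega
          _ = d * (j + 1) := by ring
          _ ≤ d * Q := Nat.mul_le_mul_left _ hj.1
      show (p.1 * (d * Q) + p.2 + j * d) % (d * Q) / d = j
      have h2 : (p.1 * (d * Q) + p.2 + j * d) % (d * Q) = p.2 + j * d := by
        rw [add_assoc, mul_comm p.1, Nat.mul_add_mod, Nat.mod_eq_of_lt h1]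
      rw [h2, Nat.add_mul_div_right _ _ hd, Nat.div_eq_of_lt hp.2, zero_add]
    · intro n hn
      simp only [coe_filter, Set.mem_ofPred_eq] at hn
      obtain ⟨hn1, hn2⟩ := hn
      have e1 : n / (d * Q) = p.1 := congrArg Prod.fst hn2
      have e2 : n % d = p.2 := congrArg Prod.snd hn2
      show p.1 * (d * Q) + p.2 + (n % (d * Q)) / d * d = n
      have h3 := Nat.div_add_mod n (d * Q)
      have h4 := Nat.div_add_mod (n % (d * Q)) d
      rw [Nat.mod_mul_right_mod, e2] at h4
      rw [e1] at h3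
      rw [mul_comm d (n % (d * Q) / d)] at h4
      rw [mul_comm p.1]
      omega
  · intro n hn
    have hn' := hB hn
    rw [mem_Icc] at hn'
    simp only [coe_product, coe_range, Set.mem_prod, Set.mem_Iio]
    exact ⟨Nat.lt_succ_of_le (Nat.div_le_div_right hn'.2), Nat.mod_lt _ hd⟩

theorem blocks_le (N d Q m : ℕ) (hQ : 0 < Q) (hd : d ≤ Q ^ m) :
    ((((range (N / (d * Q) + 1) ×ˢ range d).card : ℕ)) : ℝ) ≤ N / Q + Q ^ m := by
  have hQ0 : (0 : ℝ) < Q := by exact_mod_cast hQ
  rw [card_product, card_range, card_range]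
  rcases Nat.eq_zero_or_pos d with rfl | hd0
  · simp only [mul_zero, Nat.cast_zero]
    positivity
  have hd0' : (0 : ℝ) < d := by exact_mod_cast hd0
  have h1 : ((N / (d * Q) : ℕ) : ℝ) ≤ N / (d * Q) := by
    have := @Nat.cast_div_le ℝ _ _ _ N (d * Q)
    push_cast at this
    exact this
  have h2 : (d : ℝ) ≤ Q ^ m := by exact_mod_cast hd
  push_cast
  calc ((N / (d * Q) : ℕ) + 1 : ℝ) * d ≤ (N / (d * Q) + 1) * d := by
        apply mul_le_mul_of_nonneg_right _ hd0'.le
        linarith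
    _ = N / Q + d := by field_simp
    _ ≤ _ := by linarith

/-- choice of `Q` -/
theorem exists_Q (N m : ℕ) (hN : 1 ≤ N) :
    ∃ Q : ℕ, 1 ≤ Q ∧ (N : ℝ) / Q + (Q : ℝ) ^ m ≤ 3 * (N : ℝ) ^ (1 - 1 / ((m : ℝ) + 1)) := by
  have hN1 : (1 : ℝ) ≤ N := by exact_mod_cast hN
  have hN0 : (0 : ℝ) < N := by linarith
  have hm0 : (0 : ℝ) < (m : ℝ) + 1 := by positivity
  set x : ℝ := (N : ℝ) ^ (1 / ((m : ℝ) + 1)) with hx
  have hx1 : 1 ≤ x := Real.one_le_rpow hN1 (by positivity)
  have hx0 : 0 < x := by linarith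
  have hQ1 : 1 ≤ ⌊x⌋₊ := Nat.le_floor (by simpa using hx1)
  have hQx : (⌊x⌋₊ : ℝ) ≤ x := Nat.floor_le hx0.le
  have hxQ : x < ⌊x⌋₊ + 1 := Nat.lt_floor_add_one x
  have hQ1' : (1 : ℝ) ≤ ⌊x⌋₊ := by exact_mod_cast hQ1
  have e1 : (N : ℝ) ^ (1 - 1 / ((m : ℝ) + 1)) = N / x := by
    rw [Real.rpow_sub hN0, Real.rpow_one, hx]
  have e2 : x ^ m = N / x := by
    rw [eq_div_iff hx0.ne', ← pow_succ, hx, ← Real.rpow_natCast, ← Real.rpow_mul hN0.le]
    push_cast
    rw [one_div, inv_mul_cancel₀ hm0.ne', Real.rpow_one]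
  refine ⟨⌊x⌋₊, hQ1, ?_⟩
  rw [e1]
  have h1 : (N : ℝ) / ⌊x⌋₊ ≤ 2 * (N / x) := by
    rw [div_le_iff₀ (by linarith)]
    have h3 : (1 : ℝ) ≤ 2 / x * ⌊x⌋₊ := by
      rw [div_mul_eq_mul_div, le_div_iff₀ hx0]
      linarith
    calc (N : ℝ) = N * 1 := by ring
      _ ≤ N * (2 / x * ⌊x⌋₊) := mul_le_mul_of_nonneg_left h3 hN0.le
      _ = 2 * (N / x) * ⌊x⌋₊ := by ring
  have h2 : (⌊x⌋₊ : ℝ) ^ m ≤ N / x := by
    rw [← e2]
    exact pow_le_pow_left₀ (by positivity) hQx m
  linarith

theorem cut_subset {m : ℕ} (α β : Fin m → ℝ) (S : Set (Fin (m + 1) → ℝ)) (N : ℕ) :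
    cut α β S N ⊆ Icc 1 N := by
  classical
  exact filter_subset _ _

/-- **Relative density.** A set without `k`-term progressions has density at most about
`r k L / L` in every set given by few frequencies. -/
theorem relative {k m K N L : ℕ} (hL : 1 ≤ L) (α β : Fin m → ℝ)
    (S : Set (Fin (m + 1) → ℝ)) (hS : LineComplexity S K) (A : Finset ℕ) (hA : APFree k A) :
    ((A ∩ cut α β S N).card : ℝ) ≤ r k L / L * (cut α β S N).card +
      3 * K * (m + 1) * r k L * (N : ℝ) ^ (1 - 1 / ((m : ℝ) + 1)) := by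
  classical
  rcases Nat.eq_zero_or_pos N with rfl | hN
  · have : cut α β S 0 = ∅ := by
      have := cut_subset α β S 0
      simpa using this
    rw [this]
    simp only [inter_empty, card_empty, Nat.cast_zero, mul_zero, zero_add]
    positivity
  obtain ⟨Q, hQ, hQN⟩ := exists_Q N m hN
  obtain ⟨d, hd1, hdQ, z, hz⟩ := dirichlet α Q hQ
  have hL0 : (0 : ℝ) < L := by exact_mod_cast hL
  have hblock : ∀ p ∈ range (N / (d * Q) + 1) ×ˢ range d,
      L * ((range Q).filter fun j => p.1 * (d * Q) + p.2 + j * d ∈ A ∩ cut α β S N).card ≤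
        (((range Q).filter fun j => p.1 * (d * Q) + p.2 + j * d ∈ cut α β S N).card +
          L * ((m + 1) * K)) * r k L := by
    intro p _
    obtain ⟨g, hg1, hg2⟩ := exists_label α β S N K hS Q d (p.1 * (d * Q) + p.2) z hz
    have hst := card_starts_le g hg1 hg2
    refine (card_le_of_windows L (r k L) hL
      ((range Q).filter fun j => p.1 * (d * Q) + p.2 + j * d ∈ cut α β S N) _ ?_ ?_).trans ?_
    · intro j hj
      simp only [mem_filter, mem_inter] at hj ⊢
      exact ⟨hj.1, hj.2.2⟩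
    · intro w
      refine le_trans ?_ (card_prog_le hA (p.1 * (d * Q) + p.2 + w * d) d L hd1)
      refine card_le_card_of_injOn (fun j => j - w) ?_ ?_
      · intro j hj
        simp only [coe_filter, mem_filter, mem_range, mem_inter, Set.mem_ofPred_eq] at hj ⊢
        refine ⟨by omega, ?_⟩
        have : p.1 * (d * Q) + p.2 + w * d + (j - w) * d = p.1 * (d * Q) + p.2 + j * d := by
          have e : j = w + (j - w) := by omega
          conv_rhs => rw [e]
          ring
        rw [this]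
        exact hj.1.2.1
      · intro j hj j' hj' h
        simp only [coe_filter, mem_filter, mem_range, mem_inter, Set.mem_ofPred_eq] at hj hj' h
        omega
    · apply Nat.mul_le_mul_right
      apply Nat.add_le_add_left
      exact Nat.mul_le_mul_left _ hst
  have hsum := sum_le_sum hblock
  rw [← mul_sum, ← card_eq_blocks (A ∩ cut α β S N) N d Q hd1 hQ
    (inter_subset_right.trans (cut_subset _ _ _ _)), ← sum_mul, sum_add_distrib,
    ← card_eq_blocks (cut α β S N) N d Q hd1 hQ (cut_subset _ _ _ _), sum_const,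
    smul_eq_mul] at hsum
  have hsum' : (L : ℝ) * (A ∩ cut α β S N).card ≤ ((cut α β S N).card +
      ((range (N / (d * Q) + 1) ×ˢ range d).card : ℕ) * (L * ((m + 1) * K))) * r k L := by
    exact_mod_cast hsum
  have hbl := (blocks_le N d Q m hQ hdQ).trans hQN
  have h1 : (L : ℝ) * (A ∩ cut α β S N).card ≤ ((cut α β S N).card +
      3 * (N : ℝ) ^ (1 - 1 / ((m : ℝ) + 1)) * (L * ((m + 1) * K))) * r k L := by
    refine hsum'.trans ?_
    apply mul_le_mul_of_nonneg_right _ (Nat.cast_nonneg _)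
    have := mul_le_mul_of_nonneg_right hbl
      (by positivity : (0 : ℝ) ≤ (L : ℝ) * ((m + 1) * K))
    linarith
  rw [mul_comm, ← le_div_iff₀ hL0] at h1
  refine h1.trans (le_of_eq ?_)
  field_simp

/-- **Progression-free sets given by few frequencies.** -/
theorem absolute {k m K N : ℕ} (hk : 1 ≤ k) (α β : Fin m → ℝ)
    (S : Set (Fin (m + 1) → ℝ)) (hS : LineComplexity S K) (hA : APFree k (cut α β S N)) :
    ((cut α β S N).card : ℝ) ≤
      3 * K * (m + 1) * (k - 1) * (N : ℝ) ^ (1 - 1 / ((m : ℝ) + 1)) := by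
  classical
  have hk1 : (1 : ℝ) ≤ k := by exact_mod_cast hk
  have hk0 : (0 : ℝ) ≤ (k : ℝ) - 1 := by linarith
  rcases Nat.eq_zero_or_pos N with rfl | hN
  · have : cut α β S 0 = ∅ := by
      have := cut_subset α β S 0
      simpa using this
    rw [this]
    simp only [card_empty, Nat.cast_zero]
    positivity
  obtain ⟨Q, hQ, hQN⟩ := exists_Q N m hN
  obtain ⟨d, hd1, hdQ, z, hz⟩ := dirichlet α Q hQ
  have hblock : ∀ p ∈ range (N / (d * Q) + 1) ×ˢ range d,
      ((range Q).filter fun j => p.1 * (d * Q) + p.2 + j * d ∈ cut α β S N).card ≤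
        ((m + 1) * K) * (k - 1) := by
    intro p _
    obtain ⟨g, hg1, hg2⟩ := exists_label α β S N K hS Q d (p.1 * (d * Q) + p.2) z hz
    refine card_le_of_hull hk g hg1 hg2 ?_
    intro a h
    refine hA (p.1 * (d * Q) + p.2 + a * d) d hd1 fun j hj => ?_
    have h1 := h j hj
    simp only [mem_filter, mem_range] at h1
    have e : p.1 * (d * Q) + p.2 + a * d + j * d = p.1 * (d * Q) + p.2 + (a + j) * d := by ring
    rw [e]
    exact h1.2
  have hsum := sum_le_sum hblock
  rw [← card_eq_blocks (cut α β S N) N d Q hd1 hQ (cut_subset _ _ _ _), sum_const,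
    smul_eq_mul] at hsum
  have hsum' : ((cut α β S N).card : ℝ) ≤
      ((range (N / (d * Q) + 1) ×ˢ range d).card : ℕ) * (((m + 1) * K) * ((k : ℝ) - 1)) := by
    have : ((cut α β S N).card : ℝ) ≤
      (((range (N / (d * Q) + 1) ×ˢ range d).card * (((m + 1) * K) * (k - 1)) : ℕ) : ℝ) := by
      exact_mod_cast hsum
    rw [Nat.cast_mul, Nat.cast_mul, Nat.cast_mul, Nat.cast_sub hk] at this
    push_cast at this
    exact this
  have hbl := (blocks_le N d Q m hQ hdQ).trans hQN
  refine hsum'.trans ?_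
  have := mul_le_mul_of_nonneg_right hbl
      (by positivity : (0 : ℝ) ≤ ((m : ℝ) + 1) * K * ((k : ℝ) - 1))
  refine this.trans (le_of_eq ?_)
  ring

end Pool.Agent.W5h75.FewFreq
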