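import Pool.Agent.W5h75.FewFreq.Semialg

set_option autoImplicit false

open Finset

namespace Pool.Agent.W5h75.FewFreq

section norm

variable (p m : ℕ) [hp : Fact p.Prime]

/-- a basis of the field with `p ^ (m + 1)` elements -/
noncomputable def bas : Module.Basis (Fin (m + 1)) (ZMod p) (GaloisField p (m + 1)) :=
  Module.finBasisOfFinrankEq (ZMod p) (GaloisField p (m + 1))
    (GaloisField.finrank p (by omega))

/-- the element of the field given by the first `m` coordinates -/
noncomputable def el (Y : Fin (m + 1) → ZMod p) : GaloisField p (m + 1) :=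
  ∑ i : Fin m, Y i.castSucc • bas p m i.castSucc

/-- norm form of the first `m` coordinates minus the last coordinate -/
noncomputable def psi (Y : Fin (m + 1) → ZMod p) : ZMod p :=
  Algebra.norm (ZMod p) (el p m Y) - Y (Fin.last m)

theorem el_add_smul (X W : Fin (m + 1) → ZMod p) (s : ZMod p) :
    el p m (X + s • W) = el p m X + s • el p m W := by
  simp only [el, Pi.add_apply, Pi.smul_apply, smul_eq_mul, add_smul, sum_add_distrib, smul_sum,
    mul_smul]

theorem el_eq_zero {W : Fin (m + 1) → ZMod p} (h : el p m W = 0) (i : Fin m) :
    W i.castSucc = 0 := by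
  have hli := (bas p m).linearIndependent
  have h2 : LinearIndependent (ZMod p) (fun i : Fin m => bas p m i.castSucc) :=
    hli.comp _ (Fin.castSucc_injective m)
  exact Fintype.linearIndependent_iff.1 h2 (fun i => W i.castSucc) h i

theorem norm_poly (y u : GaloisField p (m + 1)) (hu : u ≠ 0) :
    ∃ P : Polynomial (ZMod p), P.natDegree = m + 1 ∧
      ∀ s : ZMod p, P.eval s = Algebra.norm (ZMod p) (y + s • u) := by
  classical
  set M := Algebra.leftMulMatrix (bas p m) (-(y / u)) with hM
  refine ⟨Polynomial.C (Algebra.norm (ZMod p) u) * M.charpoly, ?_, ?_⟩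
  · rw [Polynomial.natDegree_C_mul]
    · rw [Matrix.charpoly_natDegree_eq_dim, Fintype.card_fin]
    · rw [Ne, Algebra.norm_eq_zero_iff]
      exact hu
  · intro s
    have h1 : y + s • u = u * (algebraMap (ZMod p) (GaloisField p (m + 1)) s - (-(y / u))) := by
      rw [Algebra.smul_def]
      field_simp
      ring
    rw [h1, map_mul, Polynomial.eval_mul, Polynomial.eval_C]
    congr 1
    rw [Algebra.norm_eq_matrix_det (bas p m), map_sub, AlgHom.commutes, Matrix.charpoly,
      _root_.eval_det, Matrix.matPolyEquiv_charmatrix, Polynomial.eval_sub, Polynomial.eval_X,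
      Polynomial.eval_C]
    rfl

theorem psi_line (hm : 1 ≤ m) (X W : Fin (m + 1) → ZMod p) (hW : W ≠ 0) (c : ZMod p) :
    (univ.filter fun s : ZMod p => psi p m (X + s • W) = c).card ≤ m + 1 := by
  classical
  have key : ∃ P : Polynomial (ZMod p), P ≠ 0 ∧ P.natDegree ≤ m + 1 ∧
      ∀ s : ZMod p, P.eval s = psi p m (X + s • W) - c := by
    by_cases hu : el p m W = 0
    · have hlast : W (Fin.last m) ≠ 0 := by
        intro h0
        apply hW
        funext i
        refine Fin.lastCases ?_ (fun i => ?_) i
        · exact h0
        · exact el_eq_zero p m hu i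
      refine ⟨Polynomial.C (Algebra.norm (ZMod p) (el p m X) - X (Fin.last m) - c) -
        Polynomial.C (W (Fin.last m)) * Polynomial.X, ?_, ?_, ?_⟩
      · intro h0
        have := congrArg (fun P => Polynomial.coeff P 1) h0
        simp at this
        exact hlast this
      · refine (Polynomial.natDegree_sub_le _ _).trans ?_
        rw [Polynomial.natDegree_C]
        have : (Polynomial.C (W (Fin.last m)) * Polynomial.X).natDegree ≤ 1 := by
          compute_degree
        omega
      · intro s
        simp only [psi, el_add_smul, hu, smul_zero, add_zero, Polynomial.eval_sub,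
          Polynomial.eval_C, Polynomial.eval_mul, Polynomial.eval_X, Pi.add_apply, Pi.smul_apply,
          smul_eq_mul]
        ring
    · obtain ⟨P, hP1, hP2⟩ := norm_poly p m (el p m X) (el p m W) hu
      have hdeg : (Polynomial.C (X (Fin.last m) + c) +
          Polynomial.C (W (Fin.last m)) * Polynomial.X).natDegree < P.natDegree := by
        refine lt_of_le_of_lt (Polynomial.natDegree_add_le _ _) ?_
        rw [Polynomial.natDegree_C]
        have : (Polynomial.C (W (Fin.last m)) * Polynomial.X).natDegree ≤ 1 := by
          compute_degree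
        omega
      have hnd := Polynomial.natDegree_sub_eq_left_of_natDegree_lt hdeg
      refine ⟨P - (Polynomial.C (X (Fin.last m) + c) +
          Polynomial.C (W (Fin.last m)) * Polynomial.X), ?_, ?_, ?_⟩
      · intro h0
        rw [h0, Polynomial.natDegree_zero] at hnd
        omega
      · rw [hnd, hP1]
      · intro s
        simp only [psi, el_add_smul, Polynomial.eval_sub, hP2, Polynomial.eval_add,
          Polynomial.eval_C, Polynomial.eval_mul, Polynomial.eval_X, Pi.add_apply, Pi.smul_apply,
          smul_eq_mul]
        ring
  obtain ⟨P, hP0, hPd, hPe⟩ := key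
  refine le_trans (card_le_card ?_) ((P.roots.toFinset_card_le).trans
    ((P.card_roots').trans hPd))
  intro s hs
  rw [mem_filter] at hs
  rw [Multiset.mem_toFinset, Polynomial.mem_roots hP0, Polynomial.IsRoot.def, hPe, hs.2, sub_self]

end norm

end Pool.Agent.W5h75.FewFreq
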