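import Pool.Agent.W5h75.FewFreq.Norm

set_option autoImplicit false

open Finset

namespace Pool.Agent.W5h75.FewFreq

section

variable (p m : ℕ) [hp : Fact p.Prime]

/-- the residues of `n / p ^ i` modulo `p` -/
def dg (n : ℕ) : Fin (m + 1) → ZMod p := fun i => ((n / p ^ (i : ℕ) : ℕ) : ZMod p)

theorem dg_inj {n n' : ℕ} (hn : n ∈ Icc 1 (p ^ (m + 1))) (hn' : n' ∈ Icc 1 (p ^ (m + 1)))
    (h : dg p m n = dg p m n') : n = n' := by
  have hind : ∀ j ≤ m + 1, n % p ^ j = n' % p ^ j := by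
    intro j
    induction j with
    | zero => intro _; simp [Nat.mod_one]
    | succ j ih =>
      intro hj
      have h1 := congrFun h ⟨j, by omega⟩
      simp only [dg] at h1
      rw [ZMod.natCast_eq_natCast_iff'] at h1
      rw [Nat.mod_pow_succ, Nat.mod_pow_succ, ih (by omega), h1]
  have h1 := hind (m + 1) le_rfl
  rw [mem_Icc] at hn hn'
  have key : ∀ a b : ℕ, 1 ≤ a → b ≤ p ^ (m + 1) → a % p ^ (m + 1) = b % p ^ (m + 1) → a ≤ b →
      a = b := by
    intro a b ha hb hab hle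
    have h2 : p ^ (m + 1) ∣ b - a := (Nat.modEq_iff_dvd' hle).1 hab
    rcases Nat.eq_zero_or_pos (b - a) with h0 | h0
    · omega
    · have := Nat.le_of_dvd h0 h2
      omega
  rcases le_total n n' with hle | hle
  · exact key n n' hn.1 hn'.2 h1 hle
  · exact (key n' n hn'.1 hn.2 h1.symm hle).symm

theorem dg_surj (Y : Fin (m + 1) → ZMod p) : ∃ n ∈ Icc 1 (p ^ (m + 1)), dg p m n = Y := by
  classical
  have hcard : ((Icc 1 (p ^ (m + 1))).image (dg p m)).card =
      Fintype.card (Fin (m + 1) → ZMod p) := by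
    rw [card_image_of_injOn (fun a ha b hb h => dg_inj p m ha hb h), Nat.card_Icc,
      Fintype.card_fun, ZMod.card, Fintype.card_fin]
    omega
  have huniv := (card_eq_iff_eq_univ _).1 hcard
  have hY : Y ∈ (Icc 1 (p ^ (m + 1))).image (dg p m) := by
    rw [huniv]
    exact mem_univ _
  simpa using hY

/-- the hypersurfaces -/
noncomputable def hyp (Cs : Finset (ZMod p)) : Finset ℕ :=
  (Icc 1 (p ^ (m + 1))).filter fun n => psi p m (dg p m n) ∈ Cs

theorem card_hyp (Cs : Finset (ZMod p)) : Cs.card * p ^ m ≤ (hyp p m Cs).card := by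
  classical
  have h1 : (Cs ×ˢ (univ : Finset (Fin m → ZMod p))).card = Cs.card * p ^ m := by
    rw [card_product, card_univ, Fintype.card_fun, ZMod.card, Fintype.card_fin]
  rw [← h1]
  let Y : ZMod p × (Fin m → ZMod p) → (Fin (m + 1) → ZMod p) := fun q =>
    Fin.snoc q.2 (Algebra.norm (ZMod p) (el p m (Fin.snoc q.2 0 : Fin (m + 1) → ZMod p)) - q.1)
  have hel : ∀ (y : Fin m → ZMod p) (a b : ZMod p),
      el p m (Fin.snoc y a : Fin (m + 1) → ZMod p) = el p m (Fin.snoc y b) := by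
    intro y a b
    simp [el]
  have hY : ∀ q, psi p m (Y q) = q.1 := by
    intro q
    have h2 : el p m (Y q) = el p m (Fin.snoc q.2 0 : Fin (m + 1) → ZMod p) := hel _ _ _
    simp only [psi, h2]
    simp only [Y, Fin.snoc_last]
    ring
  have hYinj : Function.Injective Y := by
    intro q q' h
    have h2 : q.1 = q'.1 := by rw [← hY q, ← hY q', h]
    have h3 : q.2 = q'.2 := by
      funext i
      have := congrFun h i.castSucc
      simpa [Y] using this
    exact Prod.ext h2 h3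
  choose n hn hnY using dg_surj p m
  refine card_le_card_of_injOn (fun q => n (Y q)) ?_ ?_
  · intro q hq
    rw [mem_coe, mem_product] at hq
    rw [mem_coe, hyp, mem_filter]
    refine ⟨hn _, ?_⟩
    rw [hnY, hY]
    exact hq.1
  · intro q _ q' _ h
    apply hYinj
    have h' : n (Y q) = n (Y q') := h
    rw [← hnY (Y q), ← hnY (Y q'), h']

/-- every line contains few points of the hypersurfaces -/
theorem line_hyp (hm : 1 ≤ m) (Cs : Finset (ZMod p)) (hCs : 1 ≤ Cs.card) (A : Finset ℕ)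
    (hA : A ⊆ hyp p m Cs) :
    LineComplexity (pt (fr p m) 0 '' (A : Set ℕ)) ((m + 1) * Cs.card) := by
  classical
  have hp0 : (0 : ℝ) < p := by exact_mod_cast hp.out.pos
  refine lineComplexity_of_card _ _ (Nat.mul_pos (by omega) hCs) fun x v hv T hT => ?_
  -- choose the integers
  choose! n hnA hn using hT
  have hninj : ∀ t ∈ T, ∀ t' ∈ T, n t = n t' → t = t' := by
    intro t ht t' ht' h
    have h1 := hn t ht
    rw [h, hn t' ht'] at h1
    have h2 : (t' - t) • v = 0 := by
      rw [sub_smul, sub_eq_zero]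
      exact add_left_cancel h1
    rcases smul_eq_zero.1 h2 with h3 | h3
    · linarith
    · exact absurd h3 hv
  have hIcc : ∀ t ∈ T, n t ∈ Icc 1 (p ^ (m + 1)) := by
    intro t ht
    have := hA (hnA t ht)
    rw [hyp, mem_filter] at this
    exact this.1
  have hpsi : ∀ t ∈ T, psi p m (dg p m (n t)) ∈ Cs := by
    intro t ht
    have := hA (hnA t ht)
    rw [hyp, mem_filter] at this
    exact this.2
  -- `n / p ^ i` is a linear function of the point
  have hF : ∀ i : Fin (m + 1), ∃ f : (Fin (m + 1) → ℝ) → ℝ,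
      (∀ (y w : Fin (m + 1) → ℝ) (t : ℝ), f (y + t • w) = f y + t * f w) ∧
      ∀ k : ℕ, ((k / p ^ (i : ℕ) : ℕ) : ℝ) = f (pt (fr p m) 0 k) := by
    intro i
    refine Fin.cases ?_ (fun i => ?_) i
    · refine ⟨fun y => y 0, fun y w t => by simp, fun k => ?_⟩
      simp [pt]
    · refine ⟨fun y => y 0 / (p : ℝ) ^ ((i : ℕ) + 1) - y i.succ, fun y w t => ?_, fun k => ?_⟩
      · simp only [Pi.add_apply, Pi.smul_apply, smul_eq_mul]
        ring
      · simp only [pt, Fin.cons_zero, Fin.cons_succ, Pi.zero_apply, fr, Fin.val_succ]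
        rw [fract_digit]
        have h2 : (0 : ℝ) < (p : ℝ) ^ ((i : ℕ) + 1) := by positivity
        have h3 := Nat.div_add_mod k (p ^ ((i : ℕ) + 1))
        have h4 : ((p ^ ((i : ℕ) + 1) * (k / p ^ ((i : ℕ) + 1)) + k % p ^ ((i : ℕ) + 1) : ℕ) : ℝ)
            = k := by
          exact_mod_cast h3
        rw [← sub_div, eq_div_iff h2.ne']
        push_cast at h4
        linarith
  choose f hf1 hf2 using hF
  rcases Nat.lt_or_ge T.card 2 with h2 | h2
  · have : 1 ≤ (m + 1) * Cs.card := Nat.mul_pos (by omega) hCs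
    omega
  obtain ⟨t0, ht0, t1, ht1, hne⟩ := one_lt_card.1 h2
  set W : Fin (m + 1) → ZMod p := dg p m (n t1) - dg p m (n t0) with hW
  have hW0 : W ≠ 0 := by
    intro h0
    rw [hW, sub_eq_zero] at h0
    exact hne (hninj t0 ht0 t1 ht1 (dg_inj p m (hIcc t0 ht0) (hIcc t1 ht1) h0.symm))
  obtain ⟨j, hj⟩ : ∃ j, W j ≠ 0 := by
    by_contra hcon
    push Not at hcon
    exact hW0 (funext hcon)
  -- cross ratios
  have hcross : ∀ t ∈ T, ∀ i, (dg p m (n t) i - dg p m (n t0) i) * W j =
      (dg p m (n t) j - dg p m (n t0) j) * W i := by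
    intro t ht i
    have hreal : ∀ i : Fin (m + 1), ((n t / p ^ (i : ℕ) : ℕ) : ℝ) - ((n t0 / p ^ (i : ℕ) : ℕ) : ℝ) =
        (t - t0) * f i v := by
      intro i
      rw [hf2 i (n t), hf2 i (n t0), hn t ht, hn t0 ht0, hf1, hf1]
      ring
    have hreal1 : ∀ i : Fin (m + 1), ((n t1 / p ^ (i : ℕ) : ℕ) : ℝ) - ((n t0 / p ^ (i : ℕ) : ℕ) : ℝ) =
        (t1 - t0) * f i v := by
      intro i
      rw [hf2 i (n t1), hf2 i (n t0), hn t1 ht1, hn t0 ht0, hf1, hf1]
      ring
    have hint : (((n t / p ^ (i : ℕ) : ℕ) : ℤ) - ((n t0 / p ^ (i : ℕ) : ℕ) : ℤ)) *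
        (((n t1 / p ^ (j : ℕ) : ℕ) : ℤ) - ((n t0 / p ^ (j : ℕ) : ℕ) : ℤ)) =
        (((n t / p ^ (j : ℕ) : ℕ) : ℤ) - ((n t0 / p ^ (j : ℕ) : ℕ) : ℤ)) *
        (((n t1 / p ^ (i : ℕ) : ℕ) : ℤ) - ((n t0 / p ^ (i : ℕ) : ℕ) : ℤ)) := by
      have h3 : (((n t / p ^ (i : ℕ) : ℕ) : ℝ) - ((n t0 / p ^ (i : ℕ) : ℕ) : ℝ)) *
          (((n t1 / p ^ (j : ℕ) : ℕ) : ℝ) - ((n t0 / p ^ (j : ℕ) : ℕ) : ℝ)) =
          (((n t / p ^ (j : ℕ) : ℕ) : ℝ) - ((n t0 / p ^ (j : ℕ) : ℕ) : ℝ)) *
          (((n t1 / p ^ (i : ℕ) : ℕ) : ℝ) - ((n t0 / p ^ (i : ℕ) : ℕ) : ℝ)) := by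
        rw [hreal, hreal, hreal1, hreal1]
        ring
      exact_mod_cast h3
    have hcast := congrArg (fun z : ℤ => (z : ZMod p)) hint
    simp only [Int.cast_mul, Int.cast_sub, Int.cast_natCast] at hcast
    simp only [hW, dg, Pi.sub_apply]
    exact hcast
  set s : ℝ → ZMod p := fun t => (dg p m (n t) j - dg p m (n t0) j) / W j with hs
  have hline : ∀ t ∈ T, dg p m (n t) = dg p m (n t0) + s t • W := by
    intro t ht
    funext i
    simp only [Pi.add_apply, Pi.smul_apply, smul_eq_mul, hs]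
    have := hcross t ht i
    rw [div_mul_eq_mul_div, ← this, mul_div_cancel_right₀ _ hj]
    ring
  have hcard : T.card ≤ (Cs.biUnion fun c => univ.filter fun s : ZMod p =>
      psi p m (dg p m (n t0) + s • W) = c).card := by
    refine card_le_card_of_injOn s ?_ ?_
    · intro t ht
      rw [mem_coe, mem_biUnion]
      refine ⟨psi p m (dg p m (n t)), hpsi t ht, ?_⟩
      rw [mem_filter]
      exact ⟨mem_univ _, by rw [← hline t ht]⟩
    · intro t ht t' ht' h
      apply hninj t ht t' ht'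
      apply dg_inj p m (hIcc t ht) (hIcc t' ht')
      rw [hline t ht, hline t' ht', h]
  calc T.card ≤ _ := hcard
    _ ≤ ∑ c ∈ Cs, (univ.filter fun s : ZMod p => psi p m (dg p m (n t0) + s • W) = c).card :=
      card_biUnion_le
    _ ≤ ∑ _c ∈ Cs, (m + 1) := sum_le_sum fun c _ => psi_line p m hm _ W hW0 c
    _ = (m + 1) * Cs.card := by
      rw [sum_const, smul_eq_mul, mul_comm]

end

/-- intersecting with a translate of a progression-free set -/
theorem exists_translate (G : Finset ℕ) (N k : ℕ) (hk : 1 ≤ k) (hG : G ⊆ Icc 1 N) :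
    ∃ A ⊆ G, APFree k A ∧ G.card * r k N ≤ 2 * N * A.card := by
  classical
  obtain ⟨R, hRN, hR, hRc⟩ := exists_r k N hk
  rcases Nat.eq_zero_or_pos N with rfl | hN
  · refine ⟨∅, empty_subset _, ?_, ?_⟩
    · intro a d _ h
      simpa using h 0 (by omega)
    · have : G = ∅ := by simpa using hG
      simp [this]
  by_contra hcon
  push Not at hcon
  let A : ℕ → Finset ℕ := fun t => G.filter fun x => t ≤ x + N ∧ x + N - t ∈ R
  have hlt : ∀ t ∈ range (2 * N), 2 * N * (A t).card < G.card * r k N := by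
    intro t _
    refine hcon (A t) (filter_subset _ _) ?_
    intro a d hd h
    have h0 := h 0 (by omega)
    simp only [A, mem_filter, Nat.zero_mul, Nat.add_zero] at h0
    refine hR (a + N - t) d hd fun j hj => ?_
    have h1 := h j hj
    simp only [A, mem_filter] at h1
    have e : a + N - t + j * d = a + j * d + N - t := by omega
    rw [e]
    exact h1.2.2
  have hsum : G.card * R.card ≤ ∑ t ∈ range (2 * N), (A t).card := by
    rw [← card_product]
    have h1 : (G ×ˢ R).card = ∑ t ∈ range (2 * N),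
        ((G ×ˢ R).filter fun q => q.1 + N - q.2 = t).card := by
      refine card_eq_sum_card_fiberwise fun q hq => ?_
      rw [mem_coe, mem_product] at hq
      have h2 := hG hq.1
      have h3 := hRN hq.2
      rw [mem_Icc] at h2 h3
      rw [mem_coe, mem_range]
      show q.1 + N - q.2 < 2 * N
      omega
    rw [h1]
    refine sum_le_sum fun t _ => ?_
    refine card_le_card_of_injOn (fun q => q.1) ?_ ?_
    · intro q hq
      rw [mem_coe, mem_filter, mem_product] at hq
      have h3 := hRN hq.1.2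
      rw [mem_Icc] at h3
      rw [mem_coe]
      simp only [A, mem_filter]
      refine ⟨hq.1.1, by omega, ?_⟩
      have e : q.1 + N - t = q.2 := by omega
      rw [e]
      exact hq.1.2
    · intro q hq q' hq' h
      rw [mem_coe, mem_filter, mem_product] at hq hq'
      have h3 := hRN hq.1.2
      have h4 := hRN hq'.1.2
      rw [mem_Icc] at h3 h4
      have h5 : q.1 = q'.1 := h
      exact Prod.ext h5 (by omega)
  have hsum2 : ∑ t ∈ range (2 * N), 2 * N * (A t).card < ∑ _t ∈ range (2 * N), G.card * r k N :=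
    sum_lt_sum_of_nonempty ⟨0, by simp; omega⟩ hlt
  rw [← mul_sum, sum_const, card_range, smul_eq_mul] at hsum2
  have := Nat.lt_of_mul_lt_mul_left hsum2
  rw [hRc] at hsum
  omega

/-- **Sharpness of the exponent and of the dependence on the line complexity.** -/
theorem norm_sharp (p m K k : ℕ) (hp : p.Prime) (hm : 1 ≤ m) (hK : 1 ≤ K) (hKp : K ≤ p)
    (hk : 1 ≤ k) :
    ∃ S : Set (Fin (m + 1) → ℝ), LineComplexity S ((m + 1) * K) ∧
      APFree k (cut (fr p m) 0 S (p ^ (m + 1))) ∧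
      K * p ^ m * r k (p ^ (m + 1)) ≤ 2 * p ^ (m + 1) * (cut (fr p m) 0 S (p ^ (m + 1))).card := by
  classical
  have : Fact p.Prime := ⟨hp⟩
  obtain ⟨Cs, -, hCs⟩ := exists_subset_card_eq (s := (univ : Finset (ZMod p))) (n := K)
    (by rw [card_univ, ZMod.card]; exact hKp)
  have hG : hyp p m Cs ⊆ Icc 1 (p ^ (m + 1)) := filter_subset _ _
  obtain ⟨A, hAG, hA, hAc⟩ := exists_translate (hyp p m Cs) (p ^ (m + 1)) k hk hG
  refine ⟨pt (fr p m) 0 '' (A : Set ℕ), ?_, ?_, ?_⟩
  · have := line_hyp p m hm Cs (by omega) A hAG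
    rw [hCs] at this
    exact this
  · rw [cut_image _ _ A _ (hAG.trans hG)]
    exact hA
  · rw [cut_image _ _ A _ (hAG.trans hG)]
    refine le_trans ?_ hAc
    apply Nat.mul_le_mul_right
    have := card_hyp p m Cs
    rw [hCs] at this
    exact this

end Pool.Agent.W5h75.FewFreq
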