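import Pool.Agent.W5h75.FewFreq.Binary

set_option autoImplicit false

open Finset

namespace Pool.Agent.W5h75.FewFreq

/-- a polynomial without roots in `[s, t]` has the same sign at `s` and `t` -/
theorem sign_eq_of_no_root (P : Polynomial ℝ) {s t : ℝ} (hst : s ≤ t)
    (h : ∀ z, s ≤ z → z ≤ t → P.eval z ≠ 0) :
    SignType.sign (P.eval s) = SignType.sign (P.eval t) := by
  have hs := h s le_rfl hst
  have ht := h t hst le_rfl
  have hcont : ContinuousOn (fun z => P.eval z) (Set.Icc s t) := P.continuous.continuousOn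
  rcases lt_or_gt_of_ne hs with h1 | h1 <;> rcases lt_or_gt_of_ne ht with h2 | h2
  · rw [sign_neg h1, sign_neg h2]
  · exfalso
    obtain ⟨z, hz, hz0⟩ := intermediate_value_Icc hst hcont ⟨h1.le, h2.le⟩
    exact h z hz.1 hz.2 hz0
  · exfalso
    obtain ⟨z, hz, hz0⟩ := intermediate_value_Icc' hst hcont ⟨h2.le, h1.le⟩
    exact h z hz.1 hz.2 hz0
  · rw [sign_pos h1, sign_pos h2]

/-- **Polynomial conditions.** A set given by the signs of `l` polynomials of degree at most `D` has
line complexity at most `2 l D + 1`. -/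
theorem semialg {m l D : ℕ} (p : Fin l → MvPolynomial (Fin m) ℝ) (hp : ∀ j, (p j).totalDegree ≤ D)
    (φ : (Fin l → SignType) → Prop) :
    LineComplexity {x : Fin m → ℝ | φ fun j => SignType.sign (MvPolynomial.eval x (p j))}
      (2 * (l * D) + 1) := by
  classical
  intro x v
  let P : Fin l → Polynomial ℝ := fun j =>
    MvPolynomial.aeval (fun i => Polynomial.C (x i) + Polynomial.C (v i) * Polynomial.X) (p j)
  have hPe : ∀ j (t : ℝ), (P j).eval t = MvPolynomial.eval (x + t • v) (p j) := by
    intro j t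
    have h1 : (P j).eval t = (Polynomial.evalRingHom t) (P j) := rfl
    rw [h1]
    simp only [P, MvPolynomial.aeval_def, MvPolynomial.eval]
    rw [MvPolynomial.hom_eval₂]
    congr 1
    · ext r
      simp
    · funext i
      simp only [Polynomial.coe_evalRingHom, Polynomial.eval_add, Polynomial.eval_C,
        Polynomial.eval_mul, Polynomial.eval_X, Pi.add_apply, Pi.smul_apply, smul_eq_mul]
      ring
  have hPd : ∀ j, (P j).natDegree ≤ D := by
    intro j
    have := MvPolynomial.aeval_natDegree_le (p j) (hp j)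
      (fun i => Polynomial.C (x i) + Polynomial.C (v i) * Polynomial.X) (n := 1) (fun i => by
        compute_degree)
    simpa using this
  let Z : Finset ℝ := univ.biUnion fun j => (P j).roots.toFinset
  have hZ : Z.card ≤ l * D := by
    calc Z.card ≤ ∑ j : Fin l, ((P j).roots.toFinset).card := card_biUnion_le
      _ ≤ ∑ _j : Fin l, D := sum_le_sum fun j _ =>
        ((P j).roots.toFinset_card_le).trans (((P j).card_roots').trans (hPd j))
      _ = l * D := by simp
  have hsign : ∀ s t : ℝ, s ≤ t → (∀ z ∈ Z, ¬ (s ≤ z ∧ z ≤ t)) →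
      (fun j => SignType.sign (MvPolynomial.eval (x + s • v) (p j))) =
        fun j => SignType.sign (MvPolynomial.eval (x + t • v) (p j)) := by
    intro s t hst hz
    funext j
    rw [← hPe, ← hPe]
    by_cases h0 : P j = 0
    · rw [h0]
      simp
    · refine sign_eq_of_no_root (P j) hst fun z hz1 hz2 hz0 => hz z ?_ ⟨hz1, hz2⟩
      simp only [Z, mem_biUnion, mem_univ, true_and, Multiset.mem_toFinset]
      exact ⟨j, (Polynomial.mem_roots h0).2 hz0⟩
  let lam : ℝ → ℕ := fun t => (Z.filter fun z => z < t).card + (Z.filter fun z => z ≤ t).card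
  have hlam : ∀ t, lam t < 2 * (l * D) + 1 := by
    intro t
    have h1 := card_filter_le Z (fun z => z < t)
    have h2 := card_filter_le Z (fun z => z ≤ t)
    simp only [lam]
    omega
  have hmono1 : ∀ s t : ℝ, s ≤ t → (Z.filter fun z => z < s) ⊆ (Z.filter fun z => z < t) := by
    intro s t hst z hz
    rw [mem_filter] at hz ⊢
    exact ⟨hz.1, lt_of_lt_of_le hz.2 hst⟩
  have hmono2 : ∀ s t : ℝ, s ≤ t → (Z.filter fun z => z ≤ s) ⊆ (Z.filter fun z => z ≤ t) := by
    intro s t hst z hz
    rw [mem_filter] at hz ⊢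
    exact ⟨hz.1, hz.2.trans hst⟩
  have hmono : ∀ s t : ℝ, s ≤ t → lam s ≤ lam t := fun s t hst =>
    Nat.add_le_add (card_le_card (hmono1 s t hst)) (card_le_card (hmono2 s t hst))
  have hnoroot : ∀ s t : ℝ, s < t → lam s = lam t → ∀ z ∈ Z, ¬ (s ≤ z ∧ z ≤ t) := by
    intro s t hst h z hz hz'
    have h1 := card_le_card (hmono1 s t hst.le)
    have h2 := card_le_card (hmono2 s t hst.le)
    simp only [lam] at h
    have e1 := eq_of_subset_of_card_le (hmono1 s t hst.le) (by omega)
    have e2 := eq_of_subset_of_card_le (hmono2 s t hst.le) (by omega)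
    rcases lt_or_eq_of_le hz'.1 with h3 | h3
    · have : z ∈ Z.filter fun z => z ≤ t := by
        rw [mem_filter]
        exact ⟨hz, hz'.2⟩
      rw [← e2, mem_filter] at this
      linarith [this.2]
    · have : z ∈ Z.filter fun z => z < t := by
        rw [mem_filter]
        exact ⟨hz, by linarith⟩
      rw [← e1, mem_filter] at this
      linarith [this.2]
  refine ⟨fun c => {t : ℝ | lam t = c ∧
    x + t • v ∈ {x : Fin m → ℝ | φ fun j => SignType.sign (MvPolynomial.eval x (p j))}}, ?_, ?_⟩
  · intro c
    apply Set.OrdConnected.convex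
    refine ⟨fun a ha b hb t ht => ?_⟩
    have h1 : lam a = c := ha.1
    have h2 : lam b = c := hb.1
    have h3 : lam t = c := by
      have := hmono a t ht.1
      have := hmono t b ht.2
      omega
    refine ⟨h3, ?_⟩
    rcases lt_or_eq_of_le ht.1 with h4 | h4
    · have h5 := hsign a t ht.1 (hnoroot a t h4 (h1.trans h3.symm))
      have h6 : φ fun j => SignType.sign (MvPolynomial.eval (x + a • v) (p j)) := ha.2
      rw [h5] at h6
      exact h6
    · rw [← h4]
      exact ha.2
  · intro t
    constructor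
    · intro ht
      exact ⟨⟨lam t, hlam t⟩, rfl, ht⟩
    · rintro ⟨c, hc⟩
      exact hc.2

end Pool.Agent.W5h75.FewFreq
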