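import Pool.Agent.W5h75.FewFreq.ConvexSharp

set_option autoImplicit false

open Finset

namespace Pool.Agent.W5h75.FewFreq

/-- the difference of two convex sets has line complexity two -/
theorem lineComplexity_diff {m : ℕ} (C D : Set (Fin m → ℝ)) (hC : Convex ℝ C) (hD : Convex ℝ D) :
    LineComplexity (C \ D) 2 := by
  intro x v
  have hline : ∀ S : Set (Fin m → ℝ), Convex ℝ S → Set.OrdConnected {t : ℝ | x + t • v ∈ S} := by
    intro S hS
    have : Convex ℝ {t : ℝ | x + t • v ∈ S} := by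
      intro s hs t ht a b ha hb hab
      show x + (a • s + b • t) • v ∈ S
      have e : x + (a • s + b • t) • v = a • (x + s • v) + b • (x + t • v) := by
        have hb' : b = 1 - a := by linarith
        subst hb'
        funext i
        simp only [Pi.add_apply, Pi.smul_apply, smul_eq_mul]
        ring
      rw [e]
      exact hS hs ht ha hb hab
    exact this.ordConnected
  have hC' := hline C hC
  have hD' := hline D hD
  set c : Set ℝ := {t : ℝ | x + t • v ∈ C} with hc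
  set e : Set ℝ := {t : ℝ | x + t • v ∈ D} with he
  refine ⟨![{t | t ∈ c ∧ ∀ s ∈ e, t < s}, {t | t ∈ c ∧ t ∉ e ∧ ∃ s ∈ e, s < t}], ?_, ?_⟩
  · intro i
    fin_cases i
    · apply Set.OrdConnected.convex
      refine ⟨fun a ha b hb t ht => ?_⟩
      exact ⟨hC'.out ha.1 hb.1 ht, fun s hs => lt_of_le_of_lt ht.2 (hb.2 s hs)⟩
    · apply Set.OrdConnected.convex
      refine ⟨fun a ha b hb t ht => ?_⟩
      obtain ⟨ha1, ha2, s, hs, hsa⟩ := ha
      refine ⟨hC'.out ha1 hb.1 ht, fun hte => ha2 (hD'.out hs hte ⟨hsa.le, ht.1⟩), s, hs,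
        lt_of_lt_of_le hsa ht.1⟩
  · intro t
    have h1 : x + t • v ∈ C \ D ↔ t ∈ c ∧ t ∉ e := Iff.rfl
    rw [h1]
    constructor
    · rintro ⟨h2, h3⟩
      by_cases h4 : ∃ s ∈ e, s < t
      · exact ⟨1, h2, h3, h4⟩
      · push Not at h4
        refine ⟨0, h2, fun s hs => ?_⟩
        rcases lt_or_eq_of_le (h4 s hs) with h | h
        · exact h
        · exact absurd (h ▸ hs) h3
    · rintro ⟨i, hi⟩
      fin_cases i
      · exact ⟨hi.1, fun hte => lt_irrefl _ (hi.2 t hte)⟩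
      · exact ⟨hi.1, hi.2.1⟩

/-- the outer body of the `r`-th shell -/
def bodyC (m b r : ℕ) : Set (Fin (m + 1) → ℝ) :=
  {x | x 0 ≤ (((2 * b) ^ m : ℕ) : ℝ) ∧ (∀ i : Fin m, 0 ≤ x i.succ) ∧
    (∀ i : Fin m, x i.succ < (b : ℝ) / ((2 * b : ℕ) : ℝ)) ∧
    ∑ i : Fin m, (x i.succ) ^ 2 < ((r : ℝ) + 1) / (4 * (b : ℝ) ^ 2)}

/-- the inner ball of the `r`-th shell -/
def bodyD (m b r : ℕ) : Set (Fin (m + 1) → ℝ) :=
  {x | ∑ i : Fin m, (x i.succ) ^ 2 < (r : ℝ) / (4 * (b : ℝ) ^ 2)}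

theorem convex_ball (m : ℕ) (ρ : ℝ) :
    Convex ℝ {x : Fin (m + 1) → ℝ | ∑ i : Fin m, (x i.succ) ^ 2 < ρ} := by
  have hf : ConvexOn ℝ Set.univ (fun x : Fin (m + 1) → ℝ => ∑ i : Fin m, (x i.succ) ^ 2) := by
    have h1 : ∀ i : Fin m, ConvexOn ℝ Set.univ (fun x : Fin (m + 1) → ℝ => (x i.succ) ^ 2) := by
      intro i
      have := (Even.convexOn_pow (𝕜 := ℝ) (n := 2) (by norm_num)).comp_linearMap
        (LinearMap.proj (R := ℝ) (φ := fun _ : Fin (m + 1) => ℝ) i.succ)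
      rw [Set.preimage_univ] at this
      exact this
    refine ⟨convex_univ, ?_⟩
    intro x _ y _ a c ha hc hac
    simp only [smul_eq_mul, mul_sum, ← sum_add_distrib]
    exact sum_le_sum fun i _ => (h1 i).2 (Set.mem_univ _) (Set.mem_univ _) ha hc hac
  have := hf.convex_lt ρ
  simpa using this

theorem convex_bodyD (m b r : ℕ) : Convex ℝ (bodyD m b r) := convex_ball m _

theorem convex_bodyC (m b r : ℕ) : Convex ℝ (bodyC m b r) := by
  have e : bodyC m b r = ((LinearMap.proj (R := ℝ) (φ := fun _ : Fin (m + 1) => ℝ) 0) ⁻¹'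
      Set.Iic ((((2 * b) ^ m : ℕ) : ℝ))) ∩ ((⋂ i : Fin m,
      ((LinearMap.proj (R := ℝ) (φ := fun _ : Fin (m + 1) => ℝ) i.succ) ⁻¹' Set.Ici 0)) ∩
      ((⋂ i : Fin m, ((LinearMap.proj (R := ℝ) (φ := fun _ : Fin (m + 1) => ℝ) i.succ) ⁻¹'
        Set.Iio ((b : ℝ) / ((2 * b : ℕ) : ℝ)))) ∩
        {x : Fin (m + 1) → ℝ | ∑ i : Fin m, (x i.succ) ^ 2 < ((r : ℝ) + 1) / (4 * (b : ℝ) ^ 2)})) := by
    ext x
    simp only [bodyC, Set.mem_ofPred_eq, Set.mem_inter_iff, Set.mem_preimage, LinearMap.proj_apply,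
      Set.mem_Iic, Set.mem_Ici, Set.mem_iInter, Set.mem_Iio]
  rw [e]
  refine Convex.inter ((convex_Iic _).linear_preimage _)
    (Convex.inter (convex_iInter fun i => (convex_Ici _).linear_preimage _)
      (Convex.inter (convex_iInter fun i => (convex_Iio _).linear_preimage _) (convex_ball m _)))

/-- the frequencies `1 / g, 1 / g ^ 2, …` -/
noncomputable def fr (g m : ℕ) : Fin m → ℝ := fun i => 1 / (g : ℝ) ^ ((i : ℕ) + 1)

theorem shell_free (m b r N : ℕ) (hb : 1 ≤ b) :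
    APFree 3 (cut (fr (2 * b) m) 0 (bodyC m b r \ bodyD m b r) N) := by
  classical
  intro a d hd h
  set g : ℕ := 2 * b with hg
  have hg2 : 2 ≤ g := by omega
  have hg0 : (0 : ℝ) < g := by exact_mod_cast (by omega : 0 < g)
  have hb0 : (0 : ℝ) < b := by exact_mod_cast hb
  have hgb : (g : ℝ) = 2 * b := by rw [hg]; push_cast; ring
  have h0 := h 0 (by omega)
  have h1 := h 1 (by omega)
  have h2 := h 2 (by omega)
  simp only [cut, mem_filter, mem_Icc, Set.mem_sdiff, bodyC, bodyD, Set.mem_ofPred_eq, pt,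
    Fin.cons_zero, Fin.cons_succ, Pi.zero_apply, not_lt, ← hg] at h0 h1 h2
  obtain ⟨⟨ha1, -⟩, ⟨-, hu0, hu1, huC⟩, huD⟩ := h0
  obtain ⟨-, ⟨-, hx0, hx1, hxC⟩, hxD⟩ := h1
  obtain ⟨-, ⟨hN, hw0, hw1, hwC⟩, hwD⟩ := h2
  have hdm : d < g ^ m := by
    have : a + 2 * d ≤ g ^ m := by exact_mod_cast hN
    omega
  obtain ⟨i, e, he, hde⟩ := Nat.exists_eq_pow_mul_and_not_dvd hd.ne' g (by omega)
  have him : i < m := by
    by_contra hc
    push Not at hc
    have h1 : g ^ m ∣ d := (pow_dvd_pow g hc).trans ⟨e, hde⟩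
    have := Nat.le_of_dvd hd h1
    omega
  have hhalf : (b : ℝ) / g = 1 / 2 := by
    rw [hgb]
    field_simp
  rw [hhalf] at hu1 hx1 hw1
  -- midpoint
  have hmid : ∀ j : Fin m, Int.fract (fr g m j * ((a + 0 * d : ℕ) : ℝ) + 0) +
      Int.fract (fr g m j * ((a + 2 * d : ℕ) : ℝ) + 0) =
      2 * Int.fract (fr g m j * ((a + 1 * d : ℕ) : ℝ) + 0) := by
    intro j
    have a1 := hu0 j
    have a2 := hu1 j
    have a3 := hx0 j
    have a4 := hx1 j
    have a5 := hw0 j
    have a6 := hw1 j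
    have hz : ∃ z : ℤ, Int.fract (fr g m j * ((a + 0 * d : ℕ) : ℝ) + 0) +
        Int.fract (fr g m j * ((a + 2 * d : ℕ) : ℝ) + 0) -
        2 * Int.fract (fr g m j * ((a + 1 * d : ℕ) : ℝ) + 0) = z := by
      refine ⟨2 * ⌊fr g m j * ((a + 1 * d : ℕ) : ℝ) + 0⌋ - ⌊fr g m j * ((a + 0 * d : ℕ) : ℝ) + 0⌋ -
        ⌊fr g m j * ((a + 2 * d : ℕ) : ℝ) + 0⌋, ?_⟩
      unfold Int.fract
      push_cast
      ring
    obtain ⟨z, hz⟩ := hz
    have hz1 : (-1 : ℝ) < z := by
      rw [← hz]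
      linarith
    have hz2 : (z : ℝ) < 1 := by
      rw [← hz]
      linarith
    have hz0 : z = 0 := by
      have b1 : (-1 : ℤ) < z := by exact_mod_cast hz1
      have b2 : z < 1 := by exact_mod_cast hz2
      omega
    rw [hz0] at hz
    push_cast at hz
    push_cast
    linarith
  set u : Fin m → ℝ := fun j => Int.fract (fr g m j * ((a + 0 * d : ℕ) : ℝ) + 0) with hu
  set x : Fin m → ℝ := fun j => Int.fract (fr g m j * ((a + 1 * d : ℕ) : ℝ) + 0) with hx
  set w : Fin m → ℝ := fun j => Int.fract (fr g m j * ((a + 2 * d : ℕ) : ℝ) + 0) with hw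
  have hpar : ∑ j, (u j) ^ 2 + ∑ j, (w j) ^ 2 = 2 * ∑ j, (x j) ^ 2 + 2 * ∑ j, (w j - x j) ^ 2 := by
    rw [← sum_add_distrib, mul_sum, mul_sum, ← sum_add_distrib]
    refine sum_congr rfl fun j _ => ?_
    have h3 : u j = 2 * x j - w j := by
      have := hmid j
      linarith
    rw [h3]
    ring
  have hsmall : ∑ j, (w j - x j) ^ 2 < 1 / (4 * (b : ℝ) ^ 2) := by
    have e1 : ((r : ℝ) + 1) / (4 * (b : ℝ) ^ 2) = r / (4 * (b : ℝ) ^ 2) + 1 / (4 * (b : ℝ) ^ 2) := by
      ring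
    rw [e1] at huC hwC
    linarith
  have hbig : 1 / (4 * (b : ℝ) ^ 2) ≤ (w ⟨i, him⟩ - x ⟨i, him⟩) ^ 2 := by
    have hz : ∃ z : ℤ, w ⟨i, him⟩ - x ⟨i, him⟩ = (z : ℝ) / g ∧ z ≠ 0 := by
      refine ⟨e - g * (⌊fr g m ⟨i, him⟩ * ((a + 2 * d : ℕ) : ℝ) + 0⌋ -
        ⌊fr g m ⟨i, him⟩ * ((a + 1 * d : ℕ) : ℝ) + 0⌋), ?_, ?_⟩
      · simp only [hw, hx, Int.fract]
        rw [eq_div_iff hg0.ne']
        have e1 : fr g m ⟨i, him⟩ * ((a + 2 * d : ℕ) : ℝ) * g -
            fr g m ⟨i, him⟩ * ((a + 1 * d : ℕ) : ℝ) * g = e := by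
          simp only [fr]
          rw [hde]
          push_cast
          field_simp
          ring
        push_cast
        push_cast at e1
        linarith
      · intro hz
        apply he
        have : (e : ℤ) = g * (⌊fr g m ⟨i, him⟩ * ((a + 2 * d : ℕ) : ℝ) + 0⌋ -
          ⌊fr g m ⟨i, him⟩ * ((a + 1 * d : ℕ) : ℝ) + 0⌋) := by omega
        exact Int.natCast_dvd_natCast.1 ⟨_, this⟩
    obtain ⟨z, hz, hz0⟩ := hz
    rw [hz, div_pow, hgb]
    have h4 : (2 * (b : ℝ)) ^ 2 = 4 * (b : ℝ) ^ 2 := by ring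
    rw [h4]
    apply div_le_div_of_nonneg_right _ (by positivity)
    have h5 : (1 : ℤ) ≤ z ^ 2 := by
      have : 0 < z ^ 2 := by positivity
      omega
    exact_mod_cast h5
  have hle : (w ⟨i, him⟩ - x ⟨i, him⟩) ^ 2 ≤ ∑ j, (w j - x j) ^ 2 :=
    single_le_sum (f := fun j => (w j - x j) ^ 2) (fun j _ => sq_nonneg _) (mem_univ _)
  linarith

theorem shell_large (m b N : ℕ) (hb : 1 ≤ b) (hN : (2 * b) ^ m ≤ N) :
    ∃ r : ℕ, b ^ m ≤ (m * b ^ 2 + 1) *
      (cut (fr (2 * b) m) 0 (bodyC m b r \ bodyD m b r) N).card := by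
  classical
  set g : ℕ := 2 * b with hg
  have hg2 : 2 ≤ g := by omega
  have hg0 : (0 : ℝ) < g := by exact_mod_cast (by omega : 0 < g)
  have hb0 : (0 : ℝ) < b := by exact_mod_cast hb
  have hgb : (g : ℝ) = 2 * b := by rw [hg]; push_cast; ring
  have hgm : 0 < g ^ m := Nat.pow_pos (by omega)
  by_contra hcon
  push Not at hcon
  let f : ℕ → ℕ := fun n => if n = 0 then g ^ m else n
  have hmaps : (dig g b m).card ≤ ((range (m * b ^ 2 + 1)).biUnion fun r =>
      cut (fr g m) 0 (bodyC m b r \ bodyD m b r) N).card := by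
    refine card_le_card_of_injOn f ?_ ?_
    · intro n hn
      rw [mem_coe, mem_dig] at hn
      rw [mem_coe, mem_biUnion]
      have hfract : ∀ i : Fin m, Int.fract (fr g m i * (f n : ℝ) + 0) =
          Int.fract (fr g m i * (n : ℝ) + 0) := by
        intro i
        simp only [f, fr]
        split_ifs with h0
        · subst h0
          rw [fract_digit, fract_digit]
          have : g ^ m % g ^ ((i : ℕ) + 1) = 0 :=
            Nat.mod_eq_zero_of_dvd (pow_dvd_pow g (by omega))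
          rw [this]
          simp
        · rfl
      have hlt : ∀ i : Fin m, Int.fract (fr g m i * (n : ℝ) + 0) < (b : ℝ) / g := fun i =>
        (fract_digit_lt g b i n (by omega)).2 (hn.2 i i.2)
      have hnn : ∀ i : Fin m, 0 ≤ Int.fract (fr g m i * (n : ℝ) + 0) := fun i =>
        Int.fract_nonneg _
      set s : ℝ := ∑ i : Fin m, (Int.fract (fr g m i * (n : ℝ) + 0)) ^ 2 with hs
      have hs0 : 0 ≤ s := sum_nonneg fun i _ => sq_nonneg _
      have hhalf : (b : ℝ) / g = 1 / 2 := by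
        rw [hgb]
        field_simp
      have hs1 : s ≤ m / 4 := by
        calc s ≤ ∑ _i : Fin m, (1 / 4 : ℝ) := by
              refine sum_le_sum fun i _ => ?_
              have h1 := hlt i
              have h2 := hnn i
              rw [hhalf] at h1
              nlinarith
          _ = m / 4 := by
              rw [sum_const, card_univ, Fintype.card_fin, nsmul_eq_mul]
              ring
      have hb4 : (0 : ℝ) < 4 * (b : ℝ) ^ 2 := by positivity
      refine ⟨⌊s * (4 * (b : ℝ) ^ 2)⌋₊, ?_, ?_⟩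
      · rw [mem_range]
        have h1 : (⌊s * (4 * (b : ℝ) ^ 2)⌋₊ : ℝ) ≤ m * b ^ 2 := by
          refine (Nat.floor_le (by positivity)).trans ?_
          have := mul_le_mul_of_nonneg_right hs1 hb4.le
          linarith
        have h2 : ⌊s * (4 * (b : ℝ) ^ 2)⌋₊ ≤ m * b ^ 2 := by exact_mod_cast h1
        omega
      · simp only [cut, mem_filter, mem_Icc, Set.mem_sdiff, bodyC, bodyD, Set.mem_ofPred_eq, pt,
          Fin.cons_zero, Fin.cons_succ, Pi.zero_apply, not_lt, hfract, ← hg, ← hs]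
        have hf1 : 1 ≤ f n := by
          simp only [f]
          split_ifs <;> omega
        have hf2 : f n ≤ g ^ m := by
          simp only [f]
          split_ifs <;> omega
        refine ⟨⟨hf1, by omega⟩, ⟨by exact_mod_cast hf2, hnn, hlt, ?_⟩, ?_⟩
        · rw [lt_div_iff₀ hb4]
          exact Nat.lt_floor_add_one _
        · rw [div_le_iff₀ hb4]
          exact Nat.floor_le (by positivity)
    · intro n hn n' hn' h
      rw [mem_coe, mem_dig] at hn hn'
      have h' : (if n = 0 then g ^ m else n) = (if n' = 0 then g ^ m else n') := h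
      split_ifs at h' <;> omega
  rw [card_dig g b m (by omega) (by omega)] at hmaps
  have hlt : ∀ r ∈ range (m * b ^ 2 + 1), (m * b ^ 2 + 1) *
      (cut (fr g m) 0 (bodyC m b r \ bodyD m b r) N).card < b ^ m := fun r _ => hcon r
  have hsum : ∑ r ∈ range (m * b ^ 2 + 1), (m * b ^ 2 + 1) *
      (cut (fr g m) 0 (bodyC m b r \ bodyD m b r) N).card <
      ∑ _r ∈ range (m * b ^ 2 + 1), b ^ m :=
    sum_lt_sum_of_nonempty ⟨0, by simp⟩ hlt
  rw [← mul_sum, sum_const, card_range, smul_eq_mul] at hsum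
  have h3 := Nat.lt_of_mul_lt_mul_left hsum
  have h4 : ((range (m * b ^ 2 + 1)).biUnion fun r =>
      cut (fr g m) 0 (bodyC m b r \ bodyD m b r) N).card ≤
      ∑ r ∈ range (m * b ^ 2 + 1), (cut (fr g m) 0 (bodyC m b r \ bodyD m b r) N).card :=
    card_biUnion_le
  omega

end Pool.Agent.W5h75.FewFreq
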